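import Pool.Agent.Lib.MP_50bb2e_nt.Qtw.Ree

/-! Row FIN of QTW: assembly. -/

namespace Pool.Agent.Lib.MP_50bb2e_nt.Qtw.Fin

open Pool.Agent.Lib.MP_50bb2e_nt.Qtw Pool.Agent.Lib.MP_50bb2e_nt.Qtw.Pro
open Pool.Agent.Lib.MP_50bb2e_nt.Qtw.Ree
open Filter Topology

noncomputable section

/-! ### Weights -/

theorem sum_weights (T : Finset ℕ) : ∀ (w : ℕ → ℝ) (Q : Finset ℕ → ℝ),
    ∑ R ∈ T.powerset, ((∏ p ∈ R, w p) * ∏ p ∈ T \ R, (1 - w p)) * ∑ S ∈ R.powerset, Q S =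
      ∑ S ∈ T.powerset, Q S * ∏ p ∈ S, w p := by
  induction T using Finset.induction_on with
  | empty => intro w Q; simp
  | insert a T ha ih =>
    intro w Q
    rw [Finset.sum_powerset_insert ha, Finset.sum_powerset_insert ha]
    have h1 : ∀ R ∈ T.powerset, ((∏ p ∈ R, w p) * ∏ p ∈ insert a T \ R, (1 - w p)) *
        ∑ S ∈ R.powerset, Q S =
        (1 - w a) * (((∏ p ∈ R, w p) * ∏ p ∈ T \ R, (1 - w p)) * ∑ S ∈ R.powerset, Q S) := by
      intro R hR
      have haR : a ∉ R := fun h => ha (Finset.mem_powerset.1 hR h)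
      rw [Finset.insert_sdiff_of_notMem _ haR, Finset.prod_insert
        (fun h => ha (Finset.mem_sdiff.1 h).1)]
      ring
    have h2 : ∀ R ∈ T.powerset, ((∏ p ∈ insert a R, w p) *
        ∏ p ∈ insert a T \ insert a R, (1 - w p)) * ∑ S ∈ (insert a R).powerset, Q S =
        w a * (((∏ p ∈ R, w p) * ∏ p ∈ T \ R, (1 - w p)) *
          ∑ S ∈ R.powerset, (Q S + Q (insert a S))) := by
      intro R hR
      have haR : a ∉ R := fun h => ha (Finset.mem_powerset.1 hR h)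
      rw [Finset.prod_insert haR, Finset.sum_powerset_insert haR, Finset.sum_add_distrib]
      have : insert a T \ insert a R = T \ R := by
        ext x; simp only [Finset.mem_sdiff, Finset.mem_insert]
        constructor
        · rintro ⟨h1, h2⟩
          push Not at h2
          exact ⟨h1.resolve_left h2.1, h2.2⟩
        · rintro ⟨h1, h2⟩
          exact ⟨Or.inr h1, fun h => h.elim (fun h => ha (h ▸ h1)) h2⟩
      rw [this]; ring
    rw [Finset.sum_congr rfl h1, Finset.sum_congr rfl h2, ← Finset.mul_sum, ← Finset.mul_sum,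
      ih w Q, ih w (fun S => Q S + Q (insert a S))]
    have h3 : ∀ S ∈ T.powerset, Q (insert a S) * ∏ p ∈ insert a S, w p =
        w a * (Q (insert a S) * ∏ p ∈ S, w p) := by
      intro S hS
      rw [Finset.prod_insert (fun h => ha (Finset.mem_powerset.1 hS h))]; ring
    rw [Finset.sum_congr rfl h3, ← Finset.mul_sum]
    simp only [add_mul, Finset.sum_add_distrib]
    ring

theorem weights (P : Finset ℕ → Prop) [DecidablePred P] (T : Finset ℕ) (d : ℕ) (w : ℕ → ℝ)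
    (hw : ∀ p ∈ T, 0 ≤ w p ∧ w p ≤ 1)
    (h : ∀ R ⊆ T, 2 ^ R.card ≤ 2 ^ d * (R.powerset.filter (fun S => P S)).card) :
    ∏ p ∈ T, (1 + w p) ≤ 2 ^ d * ∑ S ∈ T.powerset, if P S then ∏ p ∈ S, w p else 0 := by
  have h1 := sum_weights T w (fun S => if P S then 1 else 0)
  have h2 : ∀ S ∈ T.powerset, (if P S then (1 : ℝ) else 0) * ∏ p ∈ S, w p =
      if P S then ∏ p ∈ S, w p else 0 := by
    intro S _; split_ifs <;> simp
  rw [Finset.sum_congr rfl h2] at h1
  rw [← h1, Finset.mul_sum]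
  have h3 : ∏ p ∈ T, (1 + w p) =
      ∑ R ∈ T.powerset, ((∏ p ∈ R, w p) * ∏ p ∈ T \ R, (1 - w p)) * 2 ^ R.card := by
    have : ∀ p ∈ T, 1 + w p = 2 * w p + (1 - w p) := fun p _ => by ring
    rw [Finset.prod_congr rfl this, Finset.prod_add]
    refine Finset.sum_congr rfl fun R _ => ?_
    rw [Finset.prod_mul_distrib, Finset.prod_const]; ring
  rw [h3]
  refine Finset.sum_le_sum fun R hR => ?_
  have hRT := Finset.mem_powerset.1 hR
  have h4 := h R hRT
  have h5 : ((2 : ℝ)) ^ R.card ≤ 2 ^ d * ∑ S ∈ R.powerset, if P S then (1 : ℝ) else 0 := by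
    rw [Finset.sum_boole]
    exact_mod_cast h4
  have h6 : 0 ≤ (∏ p ∈ R, w p) * ∏ p ∈ T \ R, (1 - w p) :=
    mul_nonneg (Finset.prod_nonneg fun p hp => (hw p (hRT hp)).1)
      (Finset.prod_nonneg fun p hp => by
        have := (hw p (Finset.mem_sdiff.1 hp).1).2; linarith)
  calc _ ≤ _ := mul_le_mul_of_nonneg_left h5 h6
    _ = _ := by ring

/-! ### Dyadic absolute values -/

variable {v : AbsoluteValue ℂ ℝ}

theorem v_nat_le (hv : Dyadic v) (n : ℕ) : v n ≤ 1 := by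
  induction n with
  | zero => simp
  | succ n ih =>
    push_cast
    exact (hv.1 _ _).trans (max_le ih (le_of_eq (map_one v)))

theorem v_even (hv : Dyadic v) (n : ℕ) (h : Even n) : v n < 1 := by
  obtain ⟨m, rfl⟩ := h
  have : (((m + m : ℕ)) : ℂ) = 2 * m := by push_cast; ring
  rw [this, map_mul]
  calc v 2 * v m ≤ v 2 * 1 := mul_le_mul_of_nonneg_left (v_nat_le hv m) (v.nonneg _)
    _ < 1 := by rw [mul_one]; exact hv.2

theorem v_eq_of_near (hv : Dyadic v) {x y : ℂ} (h : v (x - y) < v y) : v x = v y := by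
  apply le_antisymm
  · have := hv.1 (x - y) y
    rw [sub_add_cancel] at this
    exact this.trans (max_le h.le le_rfl)
  · by_contra hc
    push Not at hc
    have h1 : v y ≤ max (v x) (v (x - y)) := by
      have := hv.1 x (-(x - y))
      rw [v.map_neg] at this
      have e : x + -(x - y) = y := by ring
      rwa [e] at this
    exact absurd h1 (not_le.2 (max_lt hc h))

theorem v_odd (hv : Dyadic v) (n : ℕ) (h : Odd n) : v n = 1 := by
  obtain ⟨m, rfl⟩ := h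
  have h1 : v (((2 * m + 1 : ℕ) : ℂ) - 1) < v 1 := by
    have : (((2 * m + 1 : ℕ)) : ℂ) - 1 = ((2 * m : ℕ) : ℂ) := by push_cast; ring
    rw [this, map_one]
    exact v_even hv _ (even_two_mul m)
  rw [v_eq_of_near hv h1, map_one]

theorem v_pow_sub_one (hv : Dyadic v) (n k : ℕ) (h : Odd n) : v ((n : ℂ) ^ k - 1) < 1 := by
  have h1 : Odd (n ^ k) := h.pow
  obtain ⟨m, hm⟩ := h1
  have : (n : ℂ) ^ k - 1 = ((2 * m : ℕ) : ℂ) := by
    have : ((n ^ k : ℕ) : ℂ) = ((2 * m + 1 : ℕ) : ℂ) := by rw [hm]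
    push_cast at this ⊢
    rw [this]; ring
  rw [this]
  exact v_even hv _ (even_two_mul m)

theorem v_root {x : ℂ} {n : ℕ} (hn : n ≠ 0) (h : x ^ n = 1) : v x = 1 := by
  have h1 : v x ^ n = 1 := by rw [← map_pow, h, map_one]
  exact (pow_eq_one_iff_of_nonneg (v.nonneg _) hn).1 h1

theorem v_char {q : ℕ} (hq : 0 < q) (ψ : DirichletCharacter ℂ q) (x : ZMod q) : v (ψ x) ≤ 1 := by
  haveI : NeZero q := ⟨hq.ne'⟩
  by_cases hx : IsUnit x
  · obtain ⟨u, rfl⟩ := hx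
    refine le_of_eq (v_root (n := Fintype.card (ZMod q)ˣ) Fintype.card_ne_zero ?_)
    rw [← map_pow, ← Units.val_pow_eq_pow_val, pow_card_eq_one]
    simp
  · rw [MulChar.map_nonunit _ hx, map_zero]
    exact zero_le_one

/-! ### Quadratic characters -/

/-- the Jacobi symbol as a product -/
def ch (S : Finset ℕ) (n : ℕ) : ℂ := ∏ p ∈ S, ((jacobiSym (n : ℤ) p : ℤ) : ℂ)

/-- indicator function of the numbers prime to `T` -/
def cop (T : Finset ℕ) (n : ℕ) : ℂ := if ∃ p ∈ T, p ∣ n then 0 else 1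

theorem ch_eq (S : Finset ℕ) (hS : ∀ p ∈ S, p.Prime) (n : ℕ) :
    ((jacobiSym (n : ℤ) (∏ p ∈ S, p) : ℤ) : ℂ) = ch S n := by
  unfold ch
  induction S using Finset.induction_on with
  | empty => simp
  | insert a S ha ih =>
    have h1 : a ≠ 0 := (hS a (Finset.mem_insert_self _ _)).ne_zero
    have h2 : (∏ p ∈ S, p) ≠ 0 := Finset.prod_ne_zero_iff.2 fun p hp =>
      (hS p (Finset.mem_insert_of_mem hp)).ne_zero
    haveI : NeZero a := ⟨h1⟩
    haveI : NeZero (∏ p ∈ S, p) := ⟨h2⟩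
    rw [Finset.prod_insert ha, Finset.prod_insert ha, jacobiSym.mul_right, Int.cast_mul,
      ih fun p hp => hS p (Finset.mem_insert_of_mem hp)]

theorem ch_mul (S : Finset ℕ) (m n : ℕ) : ch S (m * n) = ch S m * ch S n := by
  unfold ch
  rw [← Finset.prod_mul_distrib]
  refine Finset.prod_congr rfl fun p _ => ?_
  rw [Nat.cast_mul, jacobiSym.mul_left, Int.cast_mul]

theorem cop_mul (T : Finset ℕ) (hT : ∀ p ∈ T, p.Prime) (m n : ℕ) :
    cop T (m * n) = cop T m * cop T n := by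
  unfold cop
  by_cases h1 : ∃ p ∈ T, p ∣ m
  · obtain ⟨p, hp, hd⟩ := h1
    rw [if_pos ⟨p, hp, hd.mul_right n⟩, if_pos ⟨p, hp, hd⟩, zero_mul]
  · by_cases h2 : ∃ p ∈ T, p ∣ n
    · obtain ⟨p, hp, hd⟩ := h2
      rw [if_pos ⟨p, hp, hd.mul_left m⟩, if_neg h1, if_pos ⟨p, hp, hd⟩, mul_zero]
    · rw [if_neg h1, if_neg h2, if_neg, one_mul]
      rintro ⟨p, hp, hd⟩
      rcases (hT p hp).dvd_mul.1 hd with h | h
      · exact h1 ⟨p, hp, h⟩
      · exact h2 ⟨p, hp, h⟩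

theorem ch_per (S : Finset ℕ) (M n : ℕ) (h : ∀ p ∈ S, p ∣ M) : ch S (n + M) = ch S n := by
  unfold ch
  refine Finset.prod_congr rfl fun p hp => ?_
  obtain ⟨c, hc⟩ := h p hp
  have : ((n + M : ℕ) : ℤ) % (p : ℤ) = (n : ℤ) % p := by
    rw [hc]; push_cast
    rw [Int.add_mul_emod_self_left]
  rw [jacobiSym.mod_left, this, ← jacobiSym.mod_left]

theorem cop_per (T : Finset ℕ) (M n : ℕ) (h : ∀ p ∈ T, p ∣ M) : cop T (n + M) = cop T n := by
  unfold cop
  have : (∃ p ∈ T, p ∣ n + M) ↔ ∃ p ∈ T, p ∣ n :=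
    exists_congr fun p => and_congr_right fun hp => (Nat.dvd_add_iff_left (h p hp)).symm
  simp only [this]

theorem v_ch (S : Finset ℕ) (n : ℕ) : v (ch S n) ≤ 1 := by
  unfold ch
  rw [map_prod]
  refine Finset.prod_le_one (fun _ _ => v.nonneg _) fun p _ => ?_
  rcases jacobiSym.trichotomy (n : ℤ) p with h | h | h
  · rw [h]; simp
  · rw [h]; simp
  · rw [h]; simp

theorem v_cop (T : Finset ℕ) (n : ℕ) : v (cop T n) ≤ 1 := by
  unfold cop
  split_ifs
  · simp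
  · simp

theorem ch_union {C S : Finset ℕ} (h : Disjoint C S) (n : ℕ) :
    ch (C ∪ S) n = ch C n * ch S n := by
  unfold ch
  rw [Finset.prod_union h]

/-! ### Values -/

open Classical in
/-- the central value -/
def val (κ : ℕ) (e : ℕ → ℂ) : ℂ := if h : ∃ l, CV κ e l then h.choose else 0

theorem val_eq (hL : LinStatement) {κ : ℕ} {e : ℕ → ℂ} {l : ℂ} (h : CV κ e l) :
    val κ e = l := by
  have h1 : ∃ l, CV κ e l := ⟨l, h⟩
  unfold val
  rw [dif_pos h1]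
  exact hL.1 κ e _ _ h1.choose_spec h

theorem val_spec (hL : LinStatement) {κ : ℕ} {e : ℕ → ℂ} (h : ∃ l, CV κ e l) :
    CV κ e (val κ e) := by
  obtain ⟨l, hl⟩ := h
  rw [val_eq hL hl]
  exact hl

theorem cv_zero (κ : ℕ) : CV κ (fun _ => 0) 0 := by
  refine ⟨fun _ => 0, differentiable_const _, ⟨0, fun s _ => ?_⟩, rfl⟩
  simpa using (hasSum_zero (α := ℂ) (β := ℕ))

theorem cv_sum (hL : LinStatement) {ι : Type} (P : Finset ι) (κ : ℕ) (c l : ι → ℂ)
    (e : ι → ℕ → ℂ) (h : ∀ i ∈ P, CV κ (e i) (l i)) :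
    CV κ (fun n => ∑ i ∈ P, c i * e i n) (∑ i ∈ P, c i * l i) := by
  classical
  induction P using Finset.induction_on with
  | empty => simpa using cv_zero κ
  | insert a P ha ih =>
    have h1 := ih fun i hi => h i (Finset.mem_insert_of_mem hi)
    have h2 := hL.2.2 κ (e a) (c a) (l a) (h a (Finset.mem_insert_self _ _))
    have h3 := hL.2.1 κ _ _ _ _ h2 h1
    simp only [Finset.sum_insert ha]
    exact h3

/-! ### One form -/

/-- the Euler factor -/
def E (κ : ℕ) (a χ : ℕ → ℂ) (p : ℕ) : ℂ := 1 - a p * χ p / (p : ℂ) ^ κ + χ p ^ 2 / p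

theorem euler (hEu : EulStatement) {N κ : ℕ} (hN : 0 < N) (hκ : 0 < κ)
    {f : CuspForm (CongruenceSubgroup.Gamma0 N) (2 * (κ : ℤ))} {a : ℕ → ℂ} (hE : Eigen N κ f a)
    (χ : ℕ → ℂ) (hχ : ∀ m n, χ (m * n) = χ m * χ n) (l : ℂ)
    (h : CV κ (fun n => a n * χ n) l) (R : Finset ℕ) :
    (∀ p ∈ R, p.Prime ∧ ¬ p ∣ N) →
    CV κ (fun n => a n * (χ n * cop R n)) ((∏ p ∈ R, E κ a χ p) * l) := by
  induction R using Finset.induction_on with
  | empty =>
    intro _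
    have : (fun n => a n * (χ n * cop ∅ n)) = fun n => a n * χ n := by
      funext n; simp [cop]
    rw [this]; simpa using h
  | insert p R hp ih =>
    intro hR
    have hR' : ∀ r ∈ R, r.Prime ∧ ¬ r ∣ N := fun r hr => hR r (Finset.mem_insert_of_mem hr)
    obtain ⟨hp1, hp2⟩ := hR p (Finset.mem_insert_self _ _)
    have h1 := hEu N κ hN hκ f a hE (fun n => χ n * cop R n) (fun m n => by
      rw [hχ, cop_mul R (fun r hr => (hR' r hr).1)]; ring) p hp1 hp2 _ (ih hR')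
    have h2 : cop R p = 1 := by
      unfold cop
      rw [if_neg]
      rintro ⟨r, hr, hd⟩
      rcases hp1.eq_one_or_self_of_dvd r hd with h | h
      · exact (hR' r hr).1.one_lt.ne' h
      · exact hp (h ▸ hr)
    have h3 : (fun n => a n * (if p ∣ n then 0 else χ n * cop R n)) =
        fun n => a n * (χ n * cop (insert p R) n) := by
      funext n
      congr 1
      unfold cop
      by_cases hd : p ∣ n
      · rw [if_pos hd, if_pos ⟨p, Finset.mem_insert_self _ _, hd⟩, mul_zero]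
      · rw [if_neg hd]
        congr 1
        have : (∃ r ∈ insert p R, r ∣ n) ↔ ∃ r ∈ R, r ∣ n := by
          simp only [Finset.mem_insert, or_and_right, exists_or, exists_eq_left, hd, false_or]
        simp only [this]
    rw [h3] at h1
    rw [Finset.prod_insert hp]
    have h4 : (1 - a p * (χ p * cop R p) / (p : ℂ) ^ κ + (χ p * cop R p) ^ 2 / p) =
        E κ a χ p := by
      unfold E; rw [h2, mul_one]
    rw [h4] at h1
    rw [mul_assoc]
    exact h1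

theorem alt_prod (U : Finset ℕ) (n : ℕ) :
    ∑ S ∈ U.powerset, (-1 : ℂ) ^ S.card * ch S n =
      ∏ p ∈ U, (1 - ((jacobiSym (n : ℤ) p : ℤ) : ℂ)) := by
  induction U using Finset.induction_on with
  | empty => simp [ch]
  | insert p U hp ih =>
    rw [Finset.sum_powerset_insert hp, Finset.prod_insert hp, ← ih]
    have : ∀ S ∈ U.powerset, (-1 : ℂ) ^ (insert p S).card * ch (insert p S) n =
        -((jacobiSym (n : ℤ) p : ℤ) : ℂ) * ((-1 : ℂ) ^ S.card * ch S n) := by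
      intro S hS
      have hpS : p ∉ S := fun h => hp (Finset.mem_powerset.1 hS h)
      rw [Finset.card_insert_of_notMem hpS, pow_succ]
      unfold ch
      rw [Finset.prod_insert hpS]; ring
    rw [Finset.sum_congr rfl this, ← Finset.mul_sum]; ring

/-- indicator of the non-residues modulo all primes of `U` -/
def ind (U : Finset ℕ) (n : ℕ) : ℂ := ∏ p ∈ U, (if jacobiSym (n : ℤ) p = -1 then 1 else 0)

theorem ind_per (U : Finset ℕ) (M n : ℕ) (h : ∀ p ∈ U, p ∣ M) : ind U (n + M) = ind U n := by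
  unfold ind
  refine Finset.prod_congr rfl fun p hp => ?_
  obtain ⟨c, hc⟩ := h p hp
  have h1 : ((n + M : ℕ) : ℤ) % (p : ℤ) = (n : ℤ) % p := by
    rw [hc]; push_cast
    rw [Int.add_mul_emod_self_left]
  have h2 : jacobiSym ((n + M : ℕ) : ℤ) p = jacobiSym (n : ℤ) p := by
    rw [jacobiSym.mod_left, h1, ← jacobiSym.mod_left]
  rw [h2]

theorem v_ind (U : Finset ℕ) (n : ℕ) : v (ind U n) ≤ 1 := by
  unfold ind
  rw [map_prod]
  refine Finset.prod_le_one (fun _ _ => v.nonneg _) fun p _ => ?_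
  split_ifs
  · simp
  · simp

theorem cop_ind (T U : Finset ℕ) (hU : U ⊆ T) (hT : ∀ p ∈ T, p.Prime) (n : ℕ) :
    cop T n * ∏ p ∈ U, (1 - ((jacobiSym (n : ℤ) p : ℤ) : ℂ)) =
      cop T n * (2 ^ U.card * ind U n) := by
  by_cases h : ∃ p ∈ T, p ∣ n
  · have : cop T n = 0 := by unfold cop; rw [if_pos h]
    rw [this, zero_mul, zero_mul]
  · congr 1
    unfold ind
    rw [← Finset.prod_const, ← Finset.prod_mul_distrib]
    refine Finset.prod_congr rfl fun p hp => ?_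
    have hpn : ¬ p ∣ n := fun hd => h ⟨p, hU hp, hd⟩
    haveI : NeZero p := ⟨(hT p (hU hp)).ne_zero⟩
    have hne : jacobiSym (n : ℤ) p ≠ 0 := by
      rw [Ne, jacobiSym.eq_zero_iff_not_coprime, not_not, Int.gcd_natCast_natCast]
      exact ((hT p (hU hp)).coprime_iff_not_dvd.2 hpn).symm
    rcases jacobiSym.trichotomy (n : ℤ) p with h1 | h1 | h1
    · exact absurd h1 hne
    · rw [h1]; norm_num
    · rw [h1]; norm_num

section one

variable {N κ q : ℕ} {f : CuspForm (CongruenceSubgroup.Gamma0 N) (2 * (κ : ℤ))} {a : ℕ → ℂ}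
  {ψ : DirichletCharacter ℂ q}

/-- the twisted coefficients -/
def ee (a : ℕ → ℂ) (ψ : DirichletCharacter ℂ q) (T S : Finset ℕ) (n : ℕ) : ℂ :=
  a n * (ψ (n : ZMod q) * ch S n * cop T n)

theorem psi_per (ψ : DirichletCharacter ℂ q) (n P : ℕ) :
    ψ ((n + q * P : ℕ) : ZMod q) = ψ (n : ZMod q) := by
  push_cast; simp

theorem dvd_mod (T : Finset ℕ) : ∀ p ∈ T, p ∣ q * ∏ p ∈ T, p :=
  fun p hp => (Finset.dvd_prod_of_mem (fun p => p) hp).mul_left q

theorem v_mod (hv : Dyadic v) (T : Finset ℕ) (hT : ∀ p ∈ T, p.Prime ∧ p ≠ 2) :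
    v ((q * ∏ p ∈ T, p : ℕ) : ℂ) = v q := by
  rw [Nat.cast_mul, map_mul, Nat.cast_prod, map_prod, Finset.prod_congr rfl
    (fun p hp => v_odd hv p ((hT p hp).1.odd_of_ne_two (hT p hp).2)), Finset.prod_const_one,
    mul_one]

theorem lip_one (hL : LinStatement) (hv : Dyadic v) (hq : 0 < q) {C : ℝ}
    (hC : ∀ M : ℕ, 0 < M → ∀ φ : ℕ → ℂ, (∀ n, φ (n + M) = φ n) → (∀ n, v (φ n) ≤ 1) →
        ∃ l : ℂ, CV κ (fun n => a n * φ n) l ∧ v l * v M ^ κ ≤ C)
    (T : Finset ℕ) (hT : ∀ p ∈ T, p.Prime ∧ p ≠ 2) :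
    Lip v T (C / v q ^ κ) (fun S => val κ (ee a ψ T S)) := by
  intro C0 U hC0 hU hd
  have hP : 0 < q * ∏ p ∈ T, p :=
    Nat.mul_pos hq (Finset.prod_pos fun p hp => (hT p hp).1.pos)
  have hvq : 0 < v q := v.pos (by exact_mod_cast hq.ne')
  have hval : ∀ S ⊆ U, CV κ (ee a ψ T (C0 ∪ S)) (val κ (ee a ψ T (C0 ∪ S))) := by
    intro S hS
    apply val_spec hL
    obtain ⟨l, hl, -⟩ := hC (q * ∏ p ∈ T, p) hP
      (fun n => ψ (n : ZMod q) * ch (C0 ∪ S) n * cop T n)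
      (fun n => by
        show ψ ((n + q * ∏ p ∈ T, p : ℕ) : ZMod q) * _ * _ = _
        rw [psi_per, ch_per _ _ _ (fun p hp => dvd_mod T p ?_), cop_per _ _ _ (dvd_mod T)]
        rcases Finset.mem_union.1 hp with h | h
        · exact hC0 h
        · exact hU (hS h))
      (fun n => by
        show v (_ * _ * _) ≤ 1
        rw [map_mul, map_mul]
        exact mul_le_one₀ (mul_le_one₀ (v_char hq ψ _) (v.nonneg _) (v_ch _ _)) (v.nonneg _)
          (v_cop _ _))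
    exact ⟨l, hl⟩
  have h1 := cv_sum hL U.powerset κ (fun S => (-1 : ℂ) ^ S.card)
    (fun S => val κ (ee a ψ T (C0 ∪ S))) (fun S => ee a ψ T (C0 ∪ S))
    (fun S hS => hval S (Finset.mem_powerset.1 hS))
  obtain ⟨l, hl, hlC⟩ := hC (q * ∏ p ∈ T, p) hP
    (fun n => ψ (n : ZMod q) * ch C0 n * cop T n * ind U n)
    (fun n => by
      show ψ ((n + q * ∏ p ∈ T, p : ℕ) : ZMod q) * _ * _ * _ = _
      rw [psi_per, ch_per _ _ _ (fun p hp => dvd_mod T p (hC0 hp)), cop_per _ _ _ (dvd_mod T),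
        ind_per _ _ _ (fun p hp => dvd_mod T p (hU hp))])
    (fun n => by
      show v (_ * _ * _ * _) ≤ 1
      rw [map_mul, map_mul, map_mul]
      exact mul_le_one₀ (mul_le_one₀ (mul_le_one₀ (v_char hq ψ _) (v.nonneg _) (v_ch _ _))
        (v.nonneg _) (v_cop _ _)) (v.nonneg _) (v_ind _ _))
  have h2 := hL.2.2 κ _ (2 ^ U.card) l hl
  have h3 : (fun n => ∑ S ∈ U.powerset, (-1 : ℂ) ^ S.card * ee a ψ T (C0 ∪ S) n) =
      fun n => 2 ^ U.card * (a n * (ψ (n : ZMod q) * ch C0 n * cop T n * ind U n)) := by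
    funext n
    have h4 : ∀ S ∈ U.powerset, (-1 : ℂ) ^ S.card * ee a ψ T (C0 ∪ S) n =
        (a n * ψ (n : ZMod q) * ch C0 n * cop T n) * ((-1 : ℂ) ^ S.card * ch S n) := by
      intro S hS
      unfold ee
      rw [ch_union (hd.mono_right (Finset.mem_powerset.1 hS))]; ring
    rw [Finset.sum_congr rfl h4, ← Finset.mul_sum, alt_prod]
    have h5 := cop_ind T U hU (fun p hp => (hT p hp).1) n
    calc _ = a n * ψ (n : ZMod q) * ch C0 n *
          (cop T n * ∏ p ∈ U, (1 - ((jacobiSym (n : ℤ) p : ℤ) : ℂ))) := by ring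
      _ = _ := by rw [h5]; ring
  rw [h3] at h1
  have h6 : Dif (fun S => val κ (ee a ψ T S)) C0 U = 2 ^ U.card * l :=
    hL.1 κ _ _ _ h1 h2
  rw [h6, map_mul, map_pow]
  refine mul_le_mul_of_nonneg_left ?_ (pow_nonneg (v.nonneg _) _)
  rw [v_mod hv T hT] at hlC
  rw [le_div_iff₀ (pow_pos hvq _)]
  exact hlC

theorem v_E (hv : Dyadic v) (p : ℕ) (hp : p.Prime) (hp2 : p ≠ 2) (x y : ℂ) (hx : v x ≤ 1)
    (hy : v y ≤ 1) (h : v (1 - x * y + y ^ 2) = 1) :
    v (1 - x * y / (p : ℂ) ^ κ + y ^ 2 / p) = 1 := by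
  have hodd : Odd p := hp.odd_of_ne_two hp2
  have hp0 : (p : ℂ) ≠ 0 := by exact_mod_cast hp.ne_zero
  have hvp : v (p : ℂ) = 1 := v_odd hv p hodd
  have key : ∀ k : ℕ, v (1 / (p : ℂ) ^ k - 1) < 1 := by
    intro k
    have e : 1 / (p : ℂ) ^ k - 1 = -((p : ℂ) ^ k - 1) * (1 / (p : ℂ) ^ k) := by
      field_simp; ring
    rw [e, map_mul, v.map_neg, map_div₀, map_one, map_pow, hvp, one_pow, div_one, mul_one]
    exact v_pow_sub_one hv p k hodd
  have h1 : v ((1 - x * y / (p : ℂ) ^ κ + y ^ 2 / p) - (1 - x * y + y ^ 2)) < 1 := by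
    have e : (1 - x * y / (p : ℂ) ^ κ + y ^ 2 / p) - (1 - x * y + y ^ 2) =
        -(x * y) * (1 / (p : ℂ) ^ κ - 1) + y ^ 2 * (1 / (p : ℂ) ^ 1 - 1) := by
      field_simp; ring
    rw [e]
    refine lt_of_le_of_lt (hv.1 _ _) (max_lt ?_ ?_)
    · rw [map_mul, v.map_neg, map_mul]
      calc v x * v y * v (1 / (p : ℂ) ^ κ - 1) ≤ 1 * v (1 / (p : ℂ) ^ κ - 1) :=
            mul_le_mul_of_nonneg_right (mul_le_one₀ hx (v.nonneg _) hy) (v.nonneg _)
        _ < 1 := by rw [one_mul]; exact key κ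
    · rw [map_mul, map_pow]
      calc v y ^ 2 * v (1 / (p : ℂ) ^ 1 - 1) ≤ 1 * v (1 / (p : ℂ) ^ 1 - 1) :=
            mul_le_mul_of_nonneg_right (pow_le_one₀ (v.nonneg _) hy) (v.nonneg _)
        _ < 1 := by rw [one_mul]; exact key 1
  rw [v_eq_of_near hv (y := 1 - x * y + y ^ 2) (by rw [h]; exact h1), h]

theorem psi_mul (ψ : DirichletCharacter ℂ q) (S : Finset ℕ) (m n : ℕ) :
    ψ ((m * n : ℕ) : ZMod q) * ch S (m * n) =
      (ψ (m : ZMod q) * ch S m) * (ψ (n : ZMod q) * ch S n) := by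
  rw [ch_mul]; push_cast; rw [map_mul]; ring

theorem base_one (hL : LinStatement) (hEu : EulStatement) (hv : Dyadic v) (hN : 0 < N)
    (hκ : 0 < κ) (hq : 0 < q) (hE : Eigen N κ f a) (T : Finset ℕ)
    (hT : ∀ p ∈ T, p.Prime ∧ p ≠ 2 ∧ ¬ p ∣ N * q ∧ v (a p) ≤ 1 ∧
        v (1 - a p * ψ (p : ZMod q) + ψ (p : ZMod q) ^ 2) = 1)
    (h0 : ∃ l, CV κ (fun n => a n * ψ (n : ZMod q)) l) :
    v (val κ (ee a ψ T ∅)) = v (val κ (fun n => a n * ψ (n : ZMod q))) := by
  have h1 := val_spec hL h0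
  have h2 := euler hEu hN hκ hE (fun n => ψ (n : ZMod q)) (fun m n => by
    push_cast; rw [map_mul]) _ h1 T (fun p hp => ⟨(hT p hp).1, fun hd =>
      (hT p hp).2.2.1 (hd.mul_right q)⟩)
  have h3 : (fun n => a n * (ψ (n : ZMod q) * cop T n)) = ee a ψ T ∅ := by
    funext n; unfold ee; simp [ch]
  rw [h3] at h2
  rw [val_eq hL h2, map_mul, map_prod, Finset.prod_congr rfl (g := fun _ => (1 : ℝ)),
    Finset.prod_const_one, one_mul]
  intro p hp
  obtain ⟨hp1, hp2, -, hp4, hp5⟩ := hT p hp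
  exact v_E hv p hp1 hp2 _ _ hp4 (v_char hq ψ _) hp5

theorem nonvan_one (hL : LinStatement) (hEu : EulStatement) (hN : 0 < N)
    (hκ : 0 < κ) (hq : 0 < q) (hE : Eigen N κ f a) {C : ℝ}
    (hC : ∀ M : ℕ, 0 < M → ∀ φ : ℕ → ℂ, (∀ n, φ (n + M) = φ n) → (∀ n, v (φ n) ≤ 1) →
        ∃ l : ℂ, CV κ (fun n => a n * φ n) l ∧ v l * v M ^ κ ≤ C)
    (T S : Finset ℕ) (hS : S ⊆ T) (hT : ∀ p ∈ T, p.Prime ∧ ¬ p ∣ N)
    (h0 : val κ (ee a ψ T S) ≠ 0) :
    NonVan κ (fun n => a n * ψ (n : ZMod q) * (jacobiSym (n : ℤ) (∏ p ∈ S, p) : ℂ)) := by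
  have hP : 0 < q * ∏ p ∈ T, p :=
    Nat.mul_pos hq (Finset.prod_pos fun p hp => (hT p hp).1.pos)
  obtain ⟨l, hl, -⟩ := hC (q * ∏ p ∈ T, p) hP (fun n => ψ (n : ZMod q) * ch S n)
    (fun n => by
      show ψ ((n + q * ∏ p ∈ T, p : ℕ) : ZMod q) * _ = _
      rw [psi_per, ch_per _ _ _ (fun p hp => dvd_mod T p (hS hp))])
    (fun n => by
      show v (_ * _) ≤ 1
      rw [map_mul]
      exact mul_le_one₀ (v_char hq ψ _) (v.nonneg _) (v_ch _ _))
  have h2 := euler hEu hN hκ hE (fun n => ψ (n : ZMod q) * ch S n) (psi_mul ψ S) _ hl T hT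
  have h3 : (fun n => a n * (ψ (n : ZMod q) * ch S n * cop T n)) = ee a ψ T S := rfl
  rw [h3] at h2
  rw [val_eq hL h2] at h0
  refine ⟨l, right_ne_zero_of_mul h0, ?_⟩
  have h4 : (fun n : ℕ => a n * ψ (n : ZMod q) * ((jacobiSym (n : ℤ) (∏ p ∈ S, p) : ℤ) : ℂ)) =
      fun n => a n * (ψ (n : ZMod q) * ch S n) := by
    funext n
    rw [ch_eq S (fun p hp => (hT p (hS hp)).1)]; ring
  rw [h4]
  exact hl

end one

/-! ### The main theorem -/

theorem lip_const_one (T : Finset ℕ) : Lip v T 1 (fun _ => 1) := by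
  intro C U _ _ _
  unfold Dif
  simp only [mul_one]
  have h1 : (∑ S ∈ U.powerset, (-1 : ℂ) ^ S.card) = if U = ∅ then 1 else 0 := by
    have := Finset.sum_powerset_neg_one_pow_card (x := U)
    have h2 : ((∑ S ∈ U.powerset, (-1 : ℤ) ^ S.card : ℤ) : ℂ) =
        ((if U = ∅ then 1 else 0 : ℤ) : ℂ) := by rw [this]
    push_cast at h2
    exact h2
  rw [h1]
  split_ifs with h
  · subst h; simp
  · rw [map_zero]; exact pow_nonneg (v.nonneg _) _

theorem lip_prod (hPr : ProStatement) (hv : Dyadic v) {ι : Type} (s : Finset ι) (T : Finset ℕ)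
    (B : ι → ℝ) (F : ι → Finset ℕ → ℂ) (hB : ∀ i ∈ s, 0 ≤ B i) (h : ∀ i ∈ s, Lip v T (B i) (F i)) :
    Lip v T (∏ i ∈ s, B i) (fun S => ∏ i ∈ s, F i S) := by
  classical
  induction s using Finset.induction_on with
  | empty => simpa using lip_const_one T
  | insert i s hi ih =>
    have h1 := ih (fun j hj => hB j (Finset.mem_insert_of_mem hj))
      (fun j hj => h j (Finset.mem_insert_of_mem hj))
    simp only [Finset.prod_insert hi]
    exact hPr v hv T _ _ _ _ (hB i (Finset.mem_insert_self _ _))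
      (Finset.prod_nonneg fun j hj => hB j (Finset.mem_insert_of_mem hj))
      (h i (Finset.mem_insert_self _ _)) h1

theorem fin_proof (hL : LinStatement) (hF : FouStatement) (hEu : EulStatement)
    (hPr : ProStatement) (hR : ReeStatement) : MainStatement := by
  classical
  intro r N κ q f a ψ hall hbase v hv
  have hC : ∀ i, ∃ C : ℝ, 0 < C ∧ ∀ M : ℕ, 0 < M → ∀ φ : ℕ → ℂ, (∀ n, φ (n + M) = φ n) →
      (∀ n, v (φ n) ≤ 1) → ∃ l : ℂ, CV (κ i) (fun n => a i n * φ n) l ∧ v l * v M ^ κ i ≤ C :=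
    fun i => hF (N i) (κ i) (hall i).1 (hall i).2.1 (f i) (a i) (hall i).2.2.2 v hv
  choose C hC0 hC1 using hC
  have hvq : ∀ i, 0 < v (q i) := fun i => v.pos (by exact_mod_cast (hall i).2.2.1.ne')
  set B : Fin r → ℝ := fun i => C i / v (q i) ^ κ i with hB
  have hBpos : ∀ i, 0 < B i := fun i => div_pos (hC0 i) (pow_pos (hvq i) _)
  set l0 : Fin r → ℂ := fun i => val (κ i) (fun n => a i n * ψ i (n : ZMod (q i))) with hl0
  have hl0ne : ∀ i, l0 i ≠ 0 := by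
    intro i
    obtain ⟨l, hl, hcv⟩ := hbase i
    rw [hl0]
    show val (κ i) _ ≠ 0
    rw [val_eq hL hcv]; exact hl
  have hc : 0 < ∏ i, v (l0 i) := Finset.prod_pos fun i _ => v.pos (hl0ne i)
  obtain ⟨d, hd⟩ : ∃ d : ℕ, v 2 ^ (d + 1) * ∏ i, B i < ∏ i, v (l0 i) := by
    have h1 : Tendsto (fun n : ℕ => v 2 ^ n * ∏ i, B i) atTop (𝓝 (0 * ∏ i, B i)) :=
      (tendsto_pow_atTop_nhds_zero_of_lt_one (v.nonneg _) hv.2).mul_const _
    rw [zero_mul] at h1
    have h2 := (h1.comp (tendsto_add_atTop_nat 1)).eventually_lt_const hc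
    exact h2.exists
  refine ⟨d, fun T hT w hw => weights (fun S => ∀ i, NonVan (κ i) (fun n => a i n *
    ψ i (n : ZMod (q i)) * ((jacobiSym (n : ℤ) (∏ p ∈ S, p) : ℤ) : ℂ))) T d w hw fun R hR' => ?_⟩
  have hT' : ∀ p ∈ R, p.Prime ∧ p ≠ 2 := fun p hp => ⟨(hT p (hR' hp)).1, (hT p (hR' hp)).2.1⟩
  have hlip := lip_prod hPr hv Finset.univ R B (fun i S => val (κ i) (ee (a i) (ψ i) R S))
    (fun i _ => (hBpos i).le)
    (fun i _ => lip_one hL hv (hall i).2.2.1 (hC1 i) R hT')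
  have hlt : v 2 ^ (d + 1) * ∏ i, B i < v (∏ i, val (κ i) (ee (a i) (ψ i) R ∅)) := by
    rw [map_prod]
    refine lt_of_lt_of_eq hd (Finset.prod_congr rfl fun i _ => ?_)
    obtain ⟨l, _, hcv⟩ := hbase i
    exact (base_one hL hEu hv (hall i).1 (hall i).2.1 (hall i).2.2.1 (hall i).2.2.2 R
      (fun p hp => ⟨(hT p (hR' hp)).1, (hT p (hR' hp)).2.1, ((hT p (hR' hp)).2.2 i).1,
        ((hT p (hR' hp)).2.2 i).2.1, ((hT p (hR' hp)).2.2 i).2.2⟩) ⟨l, hcv⟩).symm
  have h5 := hR v hv R (∏ i, B i) _ d (Finset.prod_nonneg fun i _ => (hBpos i).le) hlip hlt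
  refine h5.trans (Nat.mul_le_mul_left _ (Finset.card_le_card fun S hS => ?_))
  rw [Finset.mem_filter] at hS ⊢
  refine ⟨hS.1, fun i => ?_⟩
  have h6 : val (κ i) (ee (a i) (ψ i) R S) ≠ 0 :=
    (Finset.prod_ne_zero_iff.1 hS.2) i (Finset.mem_univ i)
  exact nonvan_one hL hEu (hall i).1 (hall i).2.1 (hall i).2.2.1 (hall i).2.2.2 (hC1 i) R S
    (Finset.mem_powerset.1 hS.1)
    (fun p hp => ⟨(hT' p hp).1, fun hd => ((hT p (hR' hp)).2.2 i).1 (hd.mul_right (q i))⟩) h6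

end

end Pool.Agent.Lib.MP_50bb2e_nt.Qtw.Fin
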