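import Pool.Agent.Lib.MP_50bb2e_nt.Qtw.Iface

/-! Row PRO of QTW: products of Lipschitz functions on a cube. -/

namespace Pool.Agent.Lib.MP_50bb2e_nt.Qtw.Pro

open Pool.Agent.Lib.MP_50bb2e_nt.Qtw

theorem dif_empty (F : Finset ℕ → ℂ) (C : Finset ℕ) : Dif F C ∅ = F C := by
  simp [Dif]

theorem dif_insert (F : Finset ℕ → ℂ) (C U : Finset ℕ) (p : ℕ) (hp : p ∉ U) :
    Dif F C (insert p U) = Dif F C U - Dif F (insert p C) U := by
  unfold Dif
  rw [Finset.sum_powerset_insert hp, sub_eq_add_neg, ← Finset.sum_neg_distrib]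
  congr 1
  refine Finset.sum_congr rfl fun S hS => ?_
  have hpS : p ∉ S := fun h => hp (Finset.mem_powerset.1 hS h)
  rw [Finset.card_insert_of_notMem hpS, pow_succ]
  have : C ∪ insert p S = insert p C ∪ S := by
    ext x; simp only [Finset.mem_union, Finset.mem_insert]; tauto
  rw [this]; ring

/-- shift -/
def sh (p : ℕ) (F : Finset ℕ → ℂ) : Finset ℕ → ℂ := fun S => F (insert p S)

theorem dif_sh (F : Finset ℕ → ℂ) (C U : Finset ℕ) (p : ℕ) :
    Dif (sh p F) C U = Dif F (insert p C) U := by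
  unfold Dif sh
  refine Finset.sum_congr rfl fun S _ => ?_
  rw [Finset.insert_union]

theorem dif_sub (F G : Finset ℕ → ℂ) (C U : Finset ℕ) :
    Dif (fun S => F S - G S) C U = Dif F C U - Dif G C U := by
  unfold Dif
  rw [← Finset.sum_sub_distrib]
  refine Finset.sum_congr rfl fun S _ => ?_
  ring

theorem dif_add (F G : Finset ℕ → ℂ) (C U : Finset ℕ) :
    Dif (fun S => F S + G S) C U = Dif F C U + Dif G C U := by
  unfold Dif
  rw [← Finset.sum_add_distrib]
  refine Finset.sum_congr rfl fun S _ => ?_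
  ring

theorem dif_mul (k : ℂ) (F : Finset ℕ → ℂ) (C U : Finset ℕ) :
    Dif (fun S => k * F S) C U = k * Dif F C U := by
  unfold Dif
  rw [Finset.mul_sum]
  refine Finset.sum_congr rfl fun S _ => ?_
  ring

variable {v : AbsoluteValue ℂ ℝ}

theorem lip_sh {T : Finset ℕ} {B : ℝ} {F : Finset ℕ → ℂ} {p : ℕ} (hp : p ∈ T)
    (h : Lip v T B F) : Lip v (T.erase p) B (sh p F) := by
  intro C U hC hU hd
  rw [dif_sh]
  refine h _ _ ?_ (hU.trans (Finset.erase_subset _ _)) ?_
  · exact Finset.insert_subset hp (hC.trans (Finset.erase_subset _ _))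
  · rw [Finset.disjoint_insert_left]
    exact ⟨fun h => (Finset.mem_erase.1 (hU h)).1 rfl, hd⟩

theorem lip_mono {T T' : Finset ℕ} {B : ℝ} {F : Finset ℕ → ℂ} (hT : T' ⊆ T)
    (h : Lip v T B F) : Lip v T' B F :=
  fun C U hC hU hd => h C U (hC.trans hT) (hU.trans hT) hd

theorem lip_diff {T : Finset ℕ} {B : ℝ} {F : Finset ℕ → ℂ} {p : ℕ} (hp : p ∈ T)
    (h : Lip v T B F) : Lip v (T.erase p) (v 2 * B) (fun S => F S - sh p F S) := by
  intro C U hC hU hd
  have hpU : p ∉ U := fun h => (Finset.mem_erase.1 (hU h)).1 rfl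
  have hpC : p ∉ C := fun h => (Finset.mem_erase.1 (hC h)).1 rfl
  rw [dif_sub, dif_sh, ← dif_insert F C U p hpU]
  have := h C (insert p U) (hC.trans (Finset.erase_subset _ _))
    (Finset.insert_subset hp (hU.trans (Finset.erase_subset _ _)))
    (Finset.disjoint_insert_right.2 ⟨hpC, hd⟩)
  rw [Finset.card_insert_of_notMem hpU, pow_succ] at this
  calc _ ≤ _ := this
    _ = _ := by ring

theorem pro_aux (hv : Dyadic v) (U : Finset ℕ) :
    ∀ (T : Finset ℕ) (B B' : ℝ) (F G : Finset ℕ → ℂ) (C : Finset ℕ),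
      0 ≤ B → 0 ≤ B' → Lip v T B F → Lip v T B' G → C ⊆ T → U ⊆ T → Disjoint C U →
      v (Dif (fun S => F S * G S) C U) ≤ v 2 ^ U.card * (B * B') := by
  induction U using Finset.induction_on with
  | empty =>
    intro T B B' F G C hB hB' hF hG hC _ _
    rw [dif_empty, map_mul]
    have h1 := hF C ∅ hC (Finset.empty_subset _) (Finset.disjoint_empty_right _)
    have h2 := hG C ∅ hC (Finset.empty_subset _) (Finset.disjoint_empty_right _)
    rw [dif_empty] at h1 h2
    simp only [Finset.card_empty, pow_zero, one_mul] at h1 h2 ⊢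
    exact mul_le_mul h1 h2 (v.nonneg _) hB
  | insert p U hpU ih =>
    intro T B B' F G C hB hB' hF hG hC hU hd
    have hpT : p ∈ T := hU (Finset.mem_insert_self _ _)
    have hpC : p ∉ C := fun h => (Finset.disjoint_left.1 hd h) (Finset.mem_insert_self _ _)
    have hUT : U ⊆ T.erase p := fun x hx => Finset.mem_erase.2
      ⟨fun h => hpU (h ▸ hx), hU (Finset.mem_insert_of_mem hx)⟩
    have hCT : C ⊆ T.erase p := fun x hx => Finset.mem_erase.2 ⟨fun h => hpC (h ▸ hx), hC hx⟩
    have hCU : Disjoint C U := hd.mono_right (Finset.subset_insert _ _)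
    have key : Dif (fun S => F S * G S) C (insert p U) =
        Dif (fun S => (F S - sh p F S) * G S) C U +
          Dif (fun S => sh p F S * (G S - sh p G S)) C U := by
      rw [dif_insert _ _ _ _ hpU, ← dif_sh, ← dif_sub, ← dif_add]
      unfold Dif sh
      refine Finset.sum_congr rfl fun S _ => ?_
      ring
    rw [key, Finset.card_insert_of_notMem hpU, pow_succ]
    refine (hv.1 _ _).trans (max_le ?_ ?_)
    · have := ih (T.erase p) (v 2 * B) B' _ G C (mul_nonneg (v.nonneg _) hB) hB'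
        (lip_diff hpT hF) (lip_mono (Finset.erase_subset _ _) hG) hCT hUT hCU
      calc _ ≤ _ := this
        _ = _ := by ring
    · have := ih (T.erase p) B (v 2 * B') (sh p F) _ C hB (mul_nonneg (v.nonneg _) hB')
        (lip_sh hpT hF) (lip_diff hpT hG) hCT hUT hCU
      calc _ ≤ _ := this
        _ = _ := by ring

theorem pro_proof : ProStatement := fun v hv T B B' F G hB hB' hF hG C U hC hU hd =>
  pro_aux hv U T B B' F G C hB hB' hF hG hC hU hd

end Pool.Agent.Lib.MP_50bb2e_nt.Qtw.Pro
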