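import Pool.Agent.Lib.MP_50bb2e_nt.Qtw.Iface

/-!
MP_50bb2e_nt, board QTW, row ADD (helper96): additive twists. The Dirichlet series of
`a(n) e(n x / D)` is entire, and its central value is a period of the cusp form over the vertical
line over `x / D`.
-/

namespace Pool.Agent.Lib.MP_50bb2e_nt.Qtw.Add

open Complex MeasureTheory Filter Topology Asymptotics
open UpperHalfPlane hiding I
open scoped ModularForm MatrixGroups

noncomputable section

variable {N κ : ℕ}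

/-- the restriction of `f` to the vertical line over `x / D` -/
def gg (f : CuspForm (CongruenceSubgroup.Gamma0 N) (2 * (κ : ℤ))) (x : ℤ) (D : ℕ) (t : ℝ) : ℂ :=
  f (UpperHalfPlane.ofComplex ((x : ℂ) / D + t * I))

theorem im_line (x : ℤ) (D : ℕ) (t : ℝ) : ((x : ℂ) / D + t * I).im = t := by
  have h1 : ((x : ℂ) / D) = (((x : ℝ) / (D : ℝ) : ℝ) : ℂ) := by push_cast; rfl
  rw [h1, Complex.add_im, Complex.ofReal_im]
  simp

theorem im_pos_line (x : ℤ) (D : ℕ) {t : ℝ} (ht : 0 < t) : 0 < ((x : ℂ) / D + t * I).im := by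
  rw [im_line]
  exact ht

/-- polynomial growth of the coefficients -/
theorem coeff_bound (hN : 0 < N)
    (f : CuspForm (CongruenceSubgroup.Gamma0 N) (2 * (κ : ℤ))) (a : ℕ → ℂ)
    (hE : Eigen N κ f a) : (fun n => a n) =O[atTop] fun n : ℕ => (n : ℝ) ^ (κ : ℝ) := by
  have : NeZero N := ⟨hN.ne'⟩
  have h1 := CuspFormClass.qExpansion_isBigO f
  rw [CongruenceSubgroup.strictWidthInfty_Gamma0] at h1
  have h2 : ∀ n : ℕ, a n = (UpperHalfPlane.qExpansion 1 f).coeff n := by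
    intro n
    apply ModularFormClass.qExpansion_coeff_unique (Γ := (CongruenceSubgroup.Gamma0 N :
      Subgroup (GL (Fin 2) ℝ))) (k := 2 * (κ : ℤ)) one_pos
    · rw [CongruenceSubgroup.strictPeriods_Gamma0]
      exact AddSubgroup.mem_zmultiples 1
    · intro τ
      have h3 := hE.sum τ
      refine h3.congr_fun ?_
      intro m
      rw [smul_eq_mul, Function.Periodic.qParam, ← Complex.exp_nat_mul]
      congr 2
      push_cast
      ring
  have h3 : (fun n => a n) = fun n => (UpperHalfPlane.qExpansion 1 f).coeff n := funext h2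
  rw [h3]
  have h4 : (((2 * (κ : ℤ) : ℤ) : ℝ) / 2) = (κ : ℝ) := by
    push_cast
    ring
  rw [h4] at h1
  exact h1

/-- the Fourier expansion on the vertical line -/
theorem hasSum_line (f : CuspForm (CongruenceSubgroup.Gamma0 N) (2 * (κ : ℤ))) (a : ℕ → ℂ)
    (hE : Eigen N κ f a) (x : ℤ) (D : ℕ) (t : ℝ) (ht : 0 < t) :
    HasSum (fun n : ℕ => a n * Complex.exp (2 * (Real.pi : ℂ) * I * n * x / D) *
      (Real.exp (-(2 * Real.pi * n) * t) : ℂ)) (gg f x D t) := by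
  have h1 := hE.sum ⟨(x : ℂ) / D + t * I, im_pos_line x D ht⟩
  have h2 : gg f x D t = f ⟨(x : ℂ) / D + t * I, im_pos_line x D ht⟩ := by
    rw [gg, UpperHalfPlane.ofComplex_apply_of_im_pos (im_pos_line x D ht)]
  rw [h2]
  refine h1.congr_fun ?_
  intro n
  rw [mul_assoc, Complex.ofReal_exp, ← Complex.exp_add]
  congr 2
  have h3 : ((⟨(x : ℂ) / D + t * I, im_pos_line x D ht⟩ : UpperHalfPlane) : ℂ) =
    (x : ℂ) / D + t * I := rfl
  rw [h3]
  push_cast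
  have hI : I * I = -1 := Complex.I_mul_I
  linear_combination (-2 * (Real.pi : ℂ) * n * t) * hI

/-- decay at infinity -/
theorem decay_top (hD : DecStatement) (hN : 0 < N) (hκ : 0 < κ)
    (f : CuspForm (CongruenceSubgroup.Gamma0 N) (2 * (κ : ℤ))) (x : ℤ) (D : ℕ) :
    ∃ C c : ℝ, 0 < c ∧ ∀ t : ℝ, 1 ≤ t → ‖gg f x D t‖ ≤ C * Real.exp (-c * t) := by
  obtain ⟨C, c, hc, h⟩ := (hD N κ hN hκ f).1 1
  refine ⟨C, c, hc, ?_⟩
  intro t ht
  have ht0 : 0 < t := by linarith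
  have h1 := h ⟨(x : ℂ) / D + t * I, im_pos_line x D ht0⟩
  have h2 : gg f x D t = f ⟨(x : ℂ) / D + t * I, im_pos_line x D ht0⟩ := by
    rw [gg, UpperHalfPlane.ofComplex_apply_of_im_pos (im_pos_line x D ht0)]
  have h3 : (⟨(x : ℂ) / D + t * I, im_pos_line x D ht0⟩ : UpperHalfPlane).im = t :=
    im_line x D t
  rw [h3, SlashAction.slash_one] at h1
  rw [h2]
  exact h1 ht

/-- a matrix of `SL_2(ℤ)` which maps `∞` to `x / D` -/
theorem exists_matrix (x : ℤ) (D : ℕ) (hD : 0 < D) : ∃ γ : SL(2, ℤ), 0 < γ 1 0 ∧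
    ((γ 0 0 : ℤ) : ℂ) / ((γ 1 0 : ℤ) : ℂ) = (x : ℂ) / D := by
  have hg : 0 < Int.gcd x D := Int.gcd_pos_of_ne_zero_right _ (by exact_mod_cast hD.ne')
  obtain ⟨g, x', D', hg0, hco, hx, hDD⟩ := Int.exists_gcd_one' (m := x) (n := (D : ℤ)) hg
  have hD' : 0 < D' := by
    have h1 : 0 < D' * (g : ℤ) := by
      rw [← hDD]
      exact_mod_cast hD
    exact pos_of_mul_pos_left h1 (by exact_mod_cast hg0.le)
  obtain ⟨u, v, huv⟩ := (Int.isCoprime_iff_gcd_eq_one.mpr hco)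
  have hdet : (!![x', -v; D', u] : Matrix (Fin 2) (Fin 2) ℤ).det = 1 := by
    rw [Matrix.det_fin_two_of]
    linarith
  let γ : SL(2, ℤ) := ⟨!![x', -v; D', u], hdet⟩
  have e1 : γ 0 0 = x' := rfl
  have e2 : γ 1 0 = D' := rfl
  refine ⟨γ, ?_, ?_⟩
  · rw [e2]
    exact hD'
  · rw [e1, e2]
    have h2 : (x : ℂ) = x' * g := by exact_mod_cast hx
    have h3 : (D : ℂ) = D' * g := by exact_mod_cast hDD
    rw [h2, h3, mul_div_mul_right _ _ (by exact_mod_cast hg0.ne')]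

/-- decay at zero -/
theorem decay_zero (hDec : DecStatement) (hN : 0 < N) (hκ : 0 < κ)
    (f : CuspForm (CongruenceSubgroup.Gamma0 N) (2 * (κ : ℤ))) (x : ℤ) (D : ℕ) (hD : 0 < D) :
    ∃ C c r : ℝ, 0 < c ∧ 0 < r ∧ ∀ t : ℝ, 0 < t → t ≤ r →
      ‖gg f x D t‖ ≤ C * Real.exp (-c * t⁻¹) * (t⁻¹) ^ (2 * κ) := by
  obtain ⟨γ, hγ, hxD⟩ := exists_matrix x D hD
  obtain ⟨C, c, hc, h⟩ := (hDec N κ hN hκ f).1 γ
  set m : ℤ := γ 1 0 with hm
  have hm0 : (0 : ℝ) < m := by exact_mod_cast hγ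
  have hmC : (m : ℂ) ≠ 0 := by exact_mod_cast hγ.ne'
  refine ⟨C * ((m : ℝ)⁻¹) ^ (2 * κ), c / m ^ 2, ((m : ℝ) ^ 2)⁻¹, by positivity, by positivity, ?_⟩
  intro t ht htr
  set w : ℂ := -((γ 1 1 : ℤ) : ℂ) / m + ((m : ℂ) ^ 2 * t)⁻¹ * I with hw
  have hwim : w.im = ((m : ℝ) ^ 2 * t)⁻¹ := by
    have e1 : -((γ 1 1 : ℤ) : ℂ) / m = ((-((γ 1 1 : ℤ) : ℝ) / m : ℝ) : ℂ) := by push_cast; rfl
    have e2 : ((m : ℂ) ^ 2 * t)⁻¹ = ((((m : ℝ) ^ 2 * t)⁻¹ : ℝ) : ℂ) := by push_cast; rfl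
    rw [hw, e1, e2, Complex.add_im, Complex.ofReal_im, Complex.im_ofReal_mul, Complex.I_im]
    ring
  have hwpos : 0 < w.im := by
    rw [hwim]
    positivity
  have htC : (t : ℂ) ≠ 0 := by exact_mod_cast ht.ne'
  have hden : UpperHalfPlane.denom (γ : GL (Fin 2) ℝ) ((⟨w, hwpos⟩ : UpperHalfPlane) : ℂ) =
      I / (m * t) := by
    have h2 : UpperHalfPlane.denom (γ : GL (Fin 2) ℝ) ((⟨w, hwpos⟩ : UpperHalfPlane) : ℂ) =
      ((γ 1 0 : ℤ) : ℂ) * w + ((γ 1 1 : ℤ) : ℂ) := rfl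
    rw [h2, ← hm, hw]
    field_simp
    ring
  have hsm : (γ • (⟨w, hwpos⟩ : UpperHalfPlane)) =
      ⟨(x : ℂ) / D + t * I, im_pos_line x D ht⟩ := by
    apply UpperHalfPlane.ext
    rw [UpperHalfPlane.coe_specialLinearGroup_apply]
    have hdet : ((γ 0 0 : ℤ) : ℂ) * ((γ 1 1 : ℤ) : ℂ) - ((γ 0 1 : ℤ) : ℂ) * (m : ℂ) = 1 := by
      have h6 := γ.det_coe
      rw [Matrix.det_fin_two] at h6
      exact_mod_cast h6
    have e1 : ((⟨w, hwpos⟩ : UpperHalfPlane) : ℂ) = w := rfl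
    have e2 : ((⟨(x : ℂ) / D + t * I, im_pos_line x D ht⟩ : UpperHalfPlane) : ℂ) =
      (x : ℂ) / D + t * I := rfl
    have e3 : ∀ i j, ((algebraMap ℤ ℝ (γ i j) : ℝ) : ℂ) = ((γ i j : ℤ) : ℂ) := by
      intro i j
      simp
    rw [e1, e2, e3, e3, e3, e3, ← hm]
    have hden' : (m : ℂ) * w + ((γ 1 1 : ℤ) : ℂ) = I / (m * t) := by
      rw [hw]
      field_simp
      ring
    have hnum : ((γ 0 0 : ℤ) : ℂ) * w + ((γ 0 1 : ℤ) : ℂ) =
        (((γ 0 0 : ℤ) : ℂ) / m + t * I) * (I / (m * t)) := by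
      have hI : I * I = -1 := Complex.I_mul_I
      have e4 : ((γ 0 1 : ℤ) : ℂ) = (((γ 0 0 : ℤ) : ℂ) * ((γ 1 1 : ℤ) : ℂ) - 1) / m := by
        rw [eq_div_iff hmC]
        linear_combination -hdet
      rw [e4, hw]
      field_simp
      linear_combination (-(m : ℂ) * t) * hI
    have hne : I / ((m : ℂ) * t) ≠ 0 := div_ne_zero Complex.I_ne_zero (mul_ne_zero hmC htC)
    rw [hden', hnum, mul_div_cancel_right₀ _ hne, hxD]
  have h1 := h ⟨w, hwpos⟩
  have h3 : (⟨w, hwpos⟩ : UpperHalfPlane).im = ((m : ℝ) ^ 2 * t)⁻¹ := hwim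
  rw [h3, ModularForm.SL_slash_apply, hsm, hden] at h1
  have h2 : gg f x D t = f ⟨(x : ℂ) / D + t * I, im_pos_line x D ht⟩ := by
    rw [gg, UpperHalfPlane.ofComplex_apply_of_im_pos (im_pos_line x D ht)]
  rw [← h2] at h1
  have h4 : 1 ≤ ((m : ℝ) ^ 2 * t)⁻¹ := by
    rw [one_le_inv₀ (by positivity)]
    calc (m : ℝ) ^ 2 * t ≤ (m : ℝ) ^ 2 * ((m : ℝ) ^ 2)⁻¹ :=
          mul_le_mul_of_nonneg_left htr (by positivity)
      _ = 1 := by field_simp
  have h5 := h1 h4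
  have hq : ‖I / ((m : ℂ) * t)‖ = ((m : ℝ) * t)⁻¹ := by
    rw [norm_div, norm_mul, Complex.norm_I, one_div, Complex.norm_real, Real.norm_of_nonneg ht.le,
      Complex.norm_intCast, abs_of_pos hm0]
  have hq0 : 0 < ((m : ℝ) * t)⁻¹ := by positivity
  rw [norm_mul, norm_zpow, hq] at h5
  have h6 : ‖gg f x D t‖ = ‖gg f x D t‖ * ((m : ℝ) * t)⁻¹ ^ (-(2 * (κ : ℤ))) *
      ((m : ℝ) * t)⁻¹ ^ (2 * κ) := by
    rw [mul_assoc]
    have e5 : ((m : ℝ) * t)⁻¹ ^ (-(2 * (κ : ℤ))) * ((m : ℝ) * t)⁻¹ ^ (2 * κ) = 1 := by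
      rw [← zpow_natCast, ← zpow_add₀ hq0.ne']
      have e6 : -(2 * (κ : ℤ)) + ((2 * κ : ℕ) : ℤ) = 0 := by push_cast; ring
      rw [e6, zpow_zero]
    rw [e5, mul_one]
  have h7 : c / (m : ℝ) ^ 2 * t⁻¹ = c * ((m : ℝ) ^ 2 * t)⁻¹ := by
    rw [mul_inv]
    ring
  calc ‖gg f x D t‖ = ‖gg f x D t‖ * ((m : ℝ) * t)⁻¹ ^ (-(2 * (κ : ℤ))) *
      ((m : ℝ) * t)⁻¹ ^ (2 * κ) := h6
    _ ≤ (C * Real.exp (-c * ((m : ℝ) ^ 2 * t)⁻¹)) * ((m : ℝ) * t)⁻¹ ^ (2 * κ) :=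
        mul_le_mul_of_nonneg_right h5 (by positivity)
    _ = C * ((m : ℝ)⁻¹) ^ (2 * κ) * Real.exp (-(c / (m : ℝ) ^ 2) * t⁻¹) * (t⁻¹) ^ (2 * κ) := by
        have e7 : ((m : ℝ) * t)⁻¹ ^ (2 * κ) = ((m : ℝ)⁻¹) ^ (2 * κ) * (t⁻¹) ^ (2 * κ) := by
          rw [mul_inv, mul_pow]
        rw [e7, neg_mul, neg_mul, h7]
        ring

/-- continuity on the line -/
theorem continuousOn_gg (f : CuspForm (CongruenceSubgroup.Gamma0 N) (2 * (κ : ℤ))) (x : ℤ)
    (D : ℕ) : ContinuousOn (gg f x D) (Set.Ioi 0) := by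
  have h1 : ContinuousOn ((f : UpperHalfPlane → ℂ) ∘ UpperHalfPlane.ofComplex)
      {z : ℂ | 0 < z.im} := by
    have h2 := (UpperHalfPlane.mdifferentiable_iff.mp (ModularFormClass.holo f)).continuousOn
    exact h2
  have h3 : ContinuousOn (fun t : ℝ => (x : ℂ) / D + t * I) (Set.Ioi 0) := by
    fun_prop
  exact h1.comp h3 (fun t ht => im_pos_line x D ht)

theorem isBigO_top (hDec : DecStatement) (hN : 0 < N) (hκ : 0 < κ)
    (f : CuspForm (CongruenceSubgroup.Gamma0 N) (2 * (κ : ℤ))) (x : ℤ) (D : ℕ) (r : ℝ) :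
    gg f x D =O[atTop] (fun t : ℝ => t ^ r) := by
  obtain ⟨C, c, hc, h⟩ := decay_top hDec hN hκ f x D
  have h1 : gg f x D =O[atTop] (fun t : ℝ => Real.exp (-c * t)) := by
    apply IsBigO.of_bound C
    filter_upwards [eventually_ge_atTop 1] with t ht
    rw [Real.norm_of_nonneg (Real.exp_pos _).le]
    exact h t ht
  exact h1.trans (isLittleO_exp_neg_mul_rpow_atTop hc r).isBigO

theorem isBigO_zero (hDec : DecStatement) (hN : 0 < N) (hκ : 0 < κ)
    (f : CuspForm (CongruenceSubgroup.Gamma0 N) (2 * (κ : ℤ))) (x : ℤ) (D : ℕ) (hD : 0 < D)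
    (r : ℝ) : gg f x D =O[𝓝[>] 0] (fun t : ℝ => t ^ (-r)) := by
  obtain ⟨C, c, r0, hc, hr0, h⟩ := decay_zero hDec hN hκ f x D hD
  have h1 : gg f x D =O[𝓝[>] 0] (fun t : ℝ => Real.exp (-c * t⁻¹) * (t⁻¹) ^ (2 * κ)) := by
    apply IsBigO.of_bound C
    filter_upwards [Ioc_mem_nhdsGT hr0] with t ht
    have ht0 : 0 < t := ht.1
    rw [Real.norm_of_nonneg (by positivity), ← mul_assoc]
    exact h t ht.1 ht.2
  refine h1.trans ?_
  have h2 : (fun u : ℝ => Real.exp (-c * u)) =O[atTop] (fun u : ℝ => u ^ (r - 2 * κ)) :=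
    (isLittleO_exp_neg_mul_rpow_atTop hc _).isBigO
  have h3 := h2.comp_tendsto tendsto_inv_nhdsGT_zero
  have h4 : (fun t : ℝ => Real.exp (-c * t⁻¹) * (t⁻¹) ^ (2 * κ)) =O[𝓝[>] 0]
      (fun t : ℝ => (t⁻¹) ^ (r - 2 * κ) * (t⁻¹) ^ (2 * κ)) :=
    h3.mul (isBigO_refl _ _)
  refine h4.trans (IsBigO.of_bound 1 ?_)
  filter_upwards [self_mem_nhdsWithin] with t ht
  have ht0 : (0 : ℝ) < t := ht
  rw [one_mul]
  apply le_of_eq
  congr 1
  rw [← Real.rpow_natCast, ← Real.rpow_add (by positivity)]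
  have e1 : r - 2 * (κ : ℝ) + ((2 * κ : ℕ) : ℝ) = r := by push_cast; ring
  rw [e1, Real.inv_rpow ht0.le, Real.rpow_neg ht0.le]

theorem differentiable_mellin (hDec : DecStatement) (hN : 0 < N) (hκ : 0 < κ)
    (f : CuspForm (CongruenceSubgroup.Gamma0 N) (2 * (κ : ℤ))) (x : ℤ) (D : ℕ) (hD : 0 < D) :
    Differentiable ℂ (mellin (gg f x D)) := by
  intro s
  apply mellin_differentiableAt_of_isBigO_rpow (a := s.re + 1) (b := s.re - 1)
  · exact (continuousOn_gg f x D).locallyIntegrableOn measurableSet_Ioi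
  · exact isBigO_top hDec hN hκ f x D _
  · linarith
  · exact isBigO_zero hDec hN hκ f x D hD _
  · linarith

theorem summable_coeff (hN : 0 < N)
    (f : CuspForm (CongruenceSubgroup.Gamma0 N) (2 * (κ : ℤ))) (a : ℕ → ℂ)
    (hE : Eigen N κ f a) (x : ℤ) (D : ℕ) (σ : ℝ) (hσ : (κ : ℝ) + 1 < σ) :
    Summable (fun n : ℕ => ‖a n * Complex.exp (2 * (Real.pi : ℂ) * I * n * x / D)‖ /
      (2 * Real.pi * n) ^ σ) := by
  have h0 : ∀ n : ℕ, ‖Complex.exp (2 * (Real.pi : ℂ) * I * n * x / D)‖ = 1 := by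
    intro n
    have e1 : 2 * (Real.pi : ℂ) * I * n * x / D = ((2 * Real.pi * n * x / D : ℝ) : ℂ) * I := by
      push_cast
      ring
    rw [e1, Complex.norm_exp_ofReal_mul_I]
  have h1 : (fun n : ℕ => ‖a n * Complex.exp (2 * (Real.pi : ℂ) * I * n * x / D)‖ /
      (2 * Real.pi * n) ^ σ) = fun n : ℕ => ((2 * Real.pi) ^ σ)⁻¹ * (‖a n‖ * (n : ℝ) ^ (-σ)) := by
    funext n
    rw [norm_mul, h0, mul_one, Real.mul_rpow (by positivity) (by positivity), Real.rpow_neg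
      (by positivity)]
    rw [div_eq_mul_inv, mul_inv]
    ring
  rw [h1]
  apply Summable.mul_left
  have h2 : (fun n : ℕ => ‖a n‖ * (n : ℝ) ^ (-σ)) =O[atTop]
      fun n : ℕ => (n : ℝ) ^ ((κ : ℝ) - σ) := by
    have h3 := (coeff_bound hN f a hE).norm_left.mul
      (isBigO_refl (fun n : ℕ => (n : ℝ) ^ (-σ)) atTop)
    refine h3.trans (IsBigO.of_bound 1 ?_)
    filter_upwards [eventually_gt_atTop 0] with n hn
    have hn0 : (0 : ℝ) < n := by exact_mod_cast hn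
    rw [← Real.rpow_add hn0, one_mul, sub_eq_add_neg]
  exact summable_of_isBigO_nat (Real.summable_nat_rpow.mpr (by linarith)) h2

theorem add_proof (hDec : DecStatement) : AddStatement := by
  intro N κ hN hκ f a hE x D hD
  refine ⟨fun s => (2 * (Real.pi : ℂ)) ^ s * (Complex.Gamma s)⁻¹ * mellin (gg f x D) s, ?_,
    ⟨(κ : ℝ) + 1, ?_⟩, ?_⟩
  · have hp : (2 * (Real.pi : ℂ)) ≠ 0 := by
      have := Real.pi_pos
      exact mul_ne_zero two_ne_zero (by exact_mod_cast this.ne')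
    refine ((Differentiable.const_cpow differentiable_id (Or.inl hp)).mul
      Complex.differentiable_one_div_Gamma).mul (differentiable_mellin hDec hN hκ f x D hD)
  · intro s hs
    have hs0 : 0 < s.re := by
      have : (0 : ℝ) ≤ κ := Nat.cast_nonneg _
      linarith
    have h1 := hasSum_mellin (a := fun n : ℕ => a n * Complex.exp (2 * (Real.pi : ℂ) * I * n * x / D))
      (p := fun n : ℕ => 2 * Real.pi * n) (F := gg f x D) (s := s) ?_ hs0 ?_
      (summable_coeff hN f a hE x D s.re hs)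
    · have h2 := h1.mul_left ((2 * (Real.pi : ℂ)) ^ s * (Complex.Gamma s)⁻¹)
      refine h2.congr_fun ?_
      intro n
      have hG : Complex.Gamma s ≠ 0 := Complex.Gamma_ne_zero_of_re_pos hs0
      have hp : ((2 * Real.pi : ℝ) : ℂ) = 2 * (Real.pi : ℂ) := by push_cast; rfl
      have hp0 : (2 * (Real.pi : ℂ)) ^ s ≠ 0 := by
        rw [← hp]
        rw [Complex.cpow_ne_zero_iff]
        left
        have := Real.pi_pos
        exact_mod_cast (by positivity : (2 * Real.pi : ℝ) ≠ 0)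
      have h3 : ((2 * Real.pi * n : ℝ) : ℂ) ^ s = (2 * (Real.pi : ℂ)) ^ s * (n : ℂ) ^ s := by
        rw [Complex.ofReal_mul, Complex.mul_cpow_ofReal_nonneg (by positivity) (by positivity), hp]
        simp
      rw [h3, Complex.cpow_neg]
      by_cases hn : (n : ℂ) ^ s = 0
      · rw [hn]
        simp
      · field_simp
    · intro n
      by_cases hn : n = 0
      · left
        rw [hn, hE.zero, zero_mul]
      · right
        have : (0 : ℝ) < n := by exact_mod_cast Nat.pos_of_ne_zero hn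
        positivity
    · intro t ht
      exact hasSum_line f a hE x D t ht
  · have h1 : (κ : ℂ) = ((κ - 1 : ℕ) : ℂ) + 1 := by
      have h2 : κ = (κ - 1) + 1 := by omega
      exact_mod_cast congrArg (Nat.cast : ℕ → ℂ) h2
    have h3 : Complex.Gamma (κ : ℂ) = ((κ - 1).factorial : ℂ) := by
      rw [h1, Complex.Gamma_nat_eq_factorial]
    have h4 : mellin (gg f x D) (κ : ℂ) = ∫ t in Set.Ioi (0 : ℝ),
        f (UpperHalfPlane.ofComplex ((x : ℂ) / D + t * I)) * (t : ℂ) ^ (κ - 1) := by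
      rw [mellin]
      apply setIntegral_congr_fun measurableSet_Ioi
      intro t ht
      have h5 : (κ : ℂ) - 1 = ((κ - 1 : ℕ) : ℂ) := by rw [h1]; simp
      simp only [smul_eq_mul]
      rw [h5, Complex.cpow_natCast, mul_comm]
      rfl
    simp only
    rw [h3, h4, Complex.cpow_natCast]
    ring

end

end Pool.Agent.Lib.MP_50bb2e_nt.Qtw.Add
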