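import Pool.Agent.Lib.MP_50bb2e_nt.Qtw.Iface

/-!
Board QTW, row EUL: removing an Euler factor.
-/

namespace Pool.Agent.Lib.MP_50bb2e_nt.Qtw.Eul

open Complex MeasureTheory Filter Topology
open scoped ModularForm

noncomputable section

theorem cp (p m : ℕ) (s : ℂ) : ((p * m : ℕ) : ℂ) ^ s = (p : ℂ) ^ s * (m : ℂ) ^ s := by
  rw [Nat.cast_mul]
  exact Complex.natCast_mul_natCast_cpow p m s

theorem eul_proof : EulStatement := by
  intro N κ hN hκ f a ha χ hχ p hp hpN l ⟨L, hL, ⟨σ, hσ⟩, hl⟩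
  have hp0 : (p : ℂ) ≠ 0 := Nat.cast_ne_zero.2 hp.ne_zero
  have hinj : Function.Injective (fun m : ℕ => p * m) := fun m n h =>
    Nat.eq_of_mul_eq_mul_left hp.pos h
  refine ⟨fun s => (1 - a p * χ p * (p : ℂ) ^ (-s) +
    (p : ℂ) ^ (2 * κ - 1) * χ p ^ 2 * ((p : ℂ) ^ (-s)) ^ 2) * L s, ?_, ⟨σ, fun s hs => ?_⟩, ?_⟩
  · have h1 : Differentiable ℂ (fun s : ℂ => (p : ℂ) ^ (-s)) :=
      differentiable_neg.const_cpow (Or.inl hp0)
    exact (((differentiable_const _).sub ((differentiable_const _).mul h1)).add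
      ((differentiable_const _).mul (h1.pow 2))).mul hL
  · have h := hσ s hs
    -- the part of the multiples of p, divided by p
    have h1 : HasSum (fun m : ℕ => if p ∣ m then a (m / p) * χ m * (m : ℂ) ^ (-s) else 0)
        (χ p * (p : ℂ) ^ (-s) * L s) := by
      refine (hinj.hasSum_iff ?_).1 ?_
      · intro m hm
        have : ¬ p ∣ m := fun ⟨c, hc⟩ => hm ⟨c, hc.symm⟩
        simp [this]
      · have h2 := h.mul_left (χ p * (p : ℂ) ^ (-s))
        refine h2.congr_fun ?_ |> fun x => x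
        intro m
        show (if p ∣ p * m then a (p * m / p) * χ (p * m) * ((p * m : ℕ) : ℂ) ^ (-s) else 0) = _
        rw [if_pos (dvd_mul_right p m), Nat.mul_div_cancel_left m hp.pos, hχ, cp]
        ring
    have h2 : HasSum (fun m : ℕ => a (p * m) * χ (p * m) * ((p * m : ℕ) : ℂ) ^ (-s))
        (χ p * (p : ℂ) ^ (-s) * a p * L s -
          χ p * (p : ℂ) ^ (-s) * (p : ℂ) ^ (2 * κ - 1) * (χ p * (p : ℂ) ^ (-s) * L s)) := by
      have h3 := (h.mul_left (χ p * (p : ℂ) ^ (-s) * a p)).sub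
        (h1.mul_left (χ p * (p : ℂ) ^ (-s) * (p : ℂ) ^ (2 * κ - 1)))
      refine h3.congr_fun ?_ |> fun x => x
      intro m
      show a (p * m) * χ (p * m) * ((p * m : ℕ) : ℂ) ^ (-s) = _
      rw [hχ, cp]
      by_cases hm : p ∣ m
      · obtain ⟨n, rfl⟩ := hm
        rw [if_pos (dvd_mul_right p n), Nat.mul_div_cancel_left n hp.pos]
        have h4 := ha.hecke' p hp hpN n
        have h5 : a (p * (p * n)) = a p * a (p * n) - (p : ℂ) ^ (2 * κ - 1) * a n := by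
          rw [← h4]; ring
        rw [h5]
        ring
      · rw [if_neg hm, ha.hecke p hp hpN m hm]
        ring
    have h3 : HasSum (fun n : ℕ => if p ∣ n then a n * χ n * (n : ℂ) ^ (-s) else 0)
        (χ p * (p : ℂ) ^ (-s) * a p * L s -
          χ p * (p : ℂ) ^ (-s) * (p : ℂ) ^ (2 * κ - 1) * (χ p * (p : ℂ) ^ (-s) * L s)) := by
      refine (hinj.hasSum_iff ?_).1 ?_
      · intro m hm
        have : ¬ p ∣ m := fun ⟨c, hc⟩ => hm ⟨c, hc.symm⟩
        simp [this]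
      · refine h2.congr_fun ?_ |> fun x => x
        intro m
        show (if p ∣ p * m then a (p * m) * χ (p * m) * ((p * m : ℕ) : ℂ) ^ (-s) else 0) = _
        rw [if_pos (dvd_mul_right p m)]
    have h4 := h.sub h3
    have h5 : L s - (χ p * (p : ℂ) ^ (-s) * a p * L s -
          χ p * (p : ℂ) ^ (-s) * (p : ℂ) ^ (2 * κ - 1) * (χ p * (p : ℂ) ^ (-s) * L s)) =
        (1 - a p * χ p * (p : ℂ) ^ (-s) +
          (p : ℂ) ^ (2 * κ - 1) * χ p ^ 2 * ((p : ℂ) ^ (-s)) ^ 2) * L s := by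
      ring
    rw [h5] at h4
    refine h4.congr_fun ?_ |> fun x => x
    intro n
    by_cases hn : p ∣ n
    · simp [hn]
    · simp [hn]
  · show (1 - a p * χ p * (p : ℂ) ^ (-(κ : ℂ)) +
      (p : ℂ) ^ (2 * κ - 1) * χ p ^ 2 * ((p : ℂ) ^ (-(κ : ℂ))) ^ 2) * L κ = _
    rw [hl, Complex.cpow_neg, Complex.cpow_natCast]
    congr 1
    have h1 : (p : ℂ) ^ (2 * κ - 1) * χ p ^ 2 * (((p : ℂ) ^ κ)⁻¹) ^ 2 = χ p ^ 2 / p := by
      have h2 : (p : ℂ) ^ (2 * κ) = (p : ℂ) ^ (2 * κ - 1) * p := by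
        rw [← pow_succ]
        congr 1
        omega
      have h3 : (p : ℂ) ^ κ ≠ 0 := pow_ne_zero _ hp0
      have h4 : (p : ℂ) ^ (2 * κ - 1) ≠ 0 := pow_ne_zero _ hp0
      have h5 : (((p : ℂ) ^ κ)⁻¹) ^ 2 = ((p : ℂ) ^ (2 * κ - 1))⁻¹ * (p : ℂ)⁻¹ := by
        rw [inv_pow, ← pow_mul, mul_comm κ 2, h2, mul_inv]
      rw [h5]
      field_simp
    rw [h1]
    ring

end

end Pool.Agent.Lib.MP_50bb2e_nt.Qtw.Eul
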