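import Pool.Agent.Lib.MP_50bb2e_nt.Qtw.Iface

/-!
MP_50bb2e_nt, board QTW, row FOU (helper78): the central values of the twists by periodic
functions are dyadically bounded. Finite Fourier expansion.
-/

namespace Pool.Agent.Lib.MP_50bb2e_nt.Qtw.Fou

open Complex MeasureTheory Filter Topology

/-- a finite sum of elements of a ball around `0` is in the ball -/
lemma sum_le {ι : Type*} (v : AbsoluteValue ℂ ℝ) (hv : ∀ x y : ℂ, v (x + y) ≤ max (v x) (v y))
    (s : Finset ι) (g : ι → ℂ) (B : ℝ) (hB : 0 ≤ B) (h : ∀ i ∈ s, v (g i) ≤ B) :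
    v (∑ i ∈ s, g i) ≤ B := by
  classical
  induction s using Finset.induction_on with
  | empty => simpa using hB
  | insert i s hi ih =>
    rw [Finset.sum_insert hi]
    exact (hv _ _).trans (max_le (h i (Finset.mem_insert_self i s))
      (ih fun j hj => h j (Finset.mem_insert_of_mem hj)))

/-- a finitely generated group is bounded -/
lemma closure_le (v : AbsoluteValue ℂ ℝ) (hv : ∀ x y : ℂ, v (x + y) ≤ max (v x) (v y))
    (V : Finset ℂ) : ∃ B : ℝ, 0 ≤ B ∧ ∀ z ∈ AddSubgroup.closure (V : Set ℂ), v z ≤ B := by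
  refine ⟨∑ z ∈ V, v z, Finset.sum_nonneg fun z _ => v.nonneg z, fun z hz => ?_⟩
  have h0 : 0 ≤ ∑ z ∈ V, v z := Finset.sum_nonneg fun z _ => v.nonneg z
  induction hz using AddSubgroup.closure_induction with
  | mem x hx => exact Finset.single_le_sum (fun z _ => v.nonneg z) (Finset.mem_coe.1 hx)
  | zero => simpa using h0
  | add x y _ _ hx hy => exact (hv x y).trans (max_le hx hy)
  | neg x _ hx => rw [v.map_neg]; exact hx

/-- a root of unity has absolute value one -/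
lemma root_one (v : AbsoluteValue ℂ ℝ) (z : ℂ) (M : ℕ) (hM : 0 < M) (h : z ^ M = 1) :
    v z = 1 := by
  have h1 : v z ^ M = 1 := by rw [← map_pow, h, map_one]
  exact (pow_eq_one_iff_of_nonneg (v.nonneg z) hM.ne').1 h1

/-- the Fourier coefficient -/
noncomputable def co (M : ℕ) (φ : ℕ → ℂ) (b : ℕ) : ℂ :=
  (M : ℂ)⁻¹ * ∑ x ∈ Finset.range M, φ x * ((Complex.exp (2 * (Real.pi : ℂ) * I / M)) ^ (x * b))⁻¹

lemma co_le (v : AbsoluteValue ℂ ℝ) (hv : ∀ x y : ℂ, v (x + y) ≤ max (v x) (v y))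
    (M : ℕ) (hM : 0 < M) (φ : ℕ → ℂ) (h : ∀ n, v (φ n) ≤ 1) (b : ℕ) :
    v (co M φ b) * v M ≤ 1 := by
  have hM0 : (M : ℂ) ≠ 0 := by exact_mod_cast hM.ne'
  have hvM : v (M : ℂ) ≠ 0 := by simpa using hM0
  have hz := (Complex.isPrimitiveRoot_exp M hM.ne').pow_eq_one
  have hone := root_one v _ M hM hz
  rw [co, map_mul, map_inv₀, mul_comm, ← mul_assoc, mul_inv_cancel₀ hvM, one_mul]
  refine sum_le v hv _ _ 1 zero_le_one fun x _ => ?_
  rw [map_mul, map_inv₀, map_pow, hone, one_pow, inv_one, mul_one]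
  exact h x

/-- finite Fourier expansion -/
lemma fourier (M : ℕ) (hM : 0 < M) (φ : ℕ → ℂ) (hφ : ∀ n, φ (n + M) = φ n) (n : ℕ) :
    φ n = ∑ b ∈ Finset.range M,
      co M φ b * (Complex.exp (2 * (Real.pi : ℂ) * I / M)) ^ (n * b) := by
  have hM0 : (M : ℂ) ≠ 0 := by exact_mod_cast hM.ne'
  have hprim := Complex.isPrimitiveRoot_exp M hM.ne'
  set ζ := Complex.exp (2 * (Real.pi : ℂ) * I / M) with hζ
  have hζ0 : ζ ≠ 0 := Complex.exp_ne_zero _
  have hinner : ∀ x ∈ Finset.range M,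
      ∑ b ∈ Finset.range M, (ζ ^ (x * b))⁻¹ * ζ ^ (n * b) = if x = n % M then (M : ℂ) else 0 := by
    intro x hx
    rw [Finset.mem_range] at hx
    have hterm : ∀ b, (ζ ^ (x * b))⁻¹ * ζ ^ (n * b) = ((ζ ^ x)⁻¹ * ζ ^ n) ^ b := by
      intro b
      rw [mul_pow, inv_pow, ← pow_mul, ← pow_mul]
    simp only [hterm]
    have hmod : ζ ^ n = ζ ^ (n % M) := by
      conv_lhs => rw [← Nat.div_add_mod n M, pow_add, pow_mul, hprim.pow_eq_one, one_pow, one_mul]
    by_cases hxn : x = n % M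
    · rw [if_pos hxn]
      have : (ζ ^ x)⁻¹ * ζ ^ n = 1 := by
        rw [hmod, ← hxn]
        exact inv_mul_cancel₀ (pow_ne_zero _ hζ0)
      rw [this]
      simp
    · rw [if_neg hxn]
      have hne : (ζ ^ x)⁻¹ * ζ ^ n ≠ 1 := by
        intro h1
        have h2 : ζ ^ (n % M) = ζ ^ x := by
          rw [← hmod]
          rwa [inv_mul_eq_one₀ (pow_ne_zero _ hζ0), eq_comm] at h1
        exact hxn (hprim.pow_inj hx (Nat.mod_lt n hM) h2.symm)
      rw [geom_sum_eq hne, mul_pow, inv_pow, ← pow_mul, ← pow_mul, mul_comm x M, mul_comm n M,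
        pow_mul, pow_mul, hprim.pow_eq_one]
      simp
  have hper : φ (n % M) = φ n := Function.Periodic.map_mod_nat hφ n
  have hswap : ∑ b ∈ Finset.range M, co M φ b * ζ ^ (n * b)
      = (M : ℂ)⁻¹ * ∑ x ∈ Finset.range M, φ x *
        ∑ b ∈ Finset.range M, (ζ ^ (x * b))⁻¹ * ζ ^ (n * b) := by
    simp only [co, ← hζ, Finset.mul_sum, Finset.sum_mul]
    rw [Finset.sum_comm]
    refine Finset.sum_congr rfl fun x _ => Finset.sum_congr rfl fun b _ => ?_
    ring
  rw [hswap, Finset.sum_congr rfl fun x hx => by rw [hinner x hx]]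
  simp only [mul_ite, mul_zero]
  rw [Finset.sum_ite_eq' (Finset.range M) (n % M),
    if_pos (Finset.mem_range.2 (Nat.mod_lt n hM)), hper]
  field_simp

/-- a finite linear combination of continued series -/
lemma cv_sum (hL : LinStatement) (κ : ℕ) (s : Finset ℕ) (e : ℕ → ℕ → ℂ) (l c : ℕ → ℂ)
    (h : ∀ b ∈ s, CV κ (e b) (l b)) :
    CV κ (fun n => ∑ b ∈ s, c b * e b n) (∑ b ∈ s, c b * l b) := by
  classical
  induction s using Finset.induction_on with
  | empty =>
    refine ⟨fun _ => 0, differentiable_const 0, ⟨0, fun s _ => ?_⟩, by simp⟩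
    simpa using (hasSum_zero : HasSum (fun _ : ℕ => (0 : ℂ)) 0)
  | insert i s hi ih =>
    simp only [Finset.sum_insert hi]
    exact hL.2.1 κ _ _ _ _ (hL.2.2 κ _ (c i) _ (h i (Finset.mem_insert_self i s)))
      (ih fun b hb => h b (Finset.mem_insert_of_mem hb))

/-- row FOU -/
theorem fou_proof (hM : ManStatement) (hA : AddStatement) (hL : LinStatement) :
    FouStatement := by
  intro N κ hN hκ f a ha v hv
  obtain ⟨V, hV⟩ := hM N κ hN hκ f
  obtain ⟨B, hB0, hB⟩ := closure_le v hv.1 V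
  set K : ℂ := (2 * (Real.pi : ℂ)) ^ κ / (κ - 1).factorial with hK
  refine ⟨v K * B + 1, by positivity, fun M hM φ hφ hφ1 => ?_⟩
  have hM0 : (M : ℂ) ≠ 0 := by exact_mod_cast hM.ne'
  have hvM : 0 < v (M : ℂ) := v.pos hM0
  set J : ℕ → ℂ := fun b => ∫ t in Set.Ioi (0 : ℝ),
    f (UpperHalfPlane.ofComplex (((b : ℤ) : ℂ) / M + t * I)) * (t : ℂ) ^ (κ - 1) with hJ
  have hcv := cv_sum hL κ (Finset.range M)
    (fun b n => a n * Complex.exp (2 * (Real.pi : ℂ) * I * n * (b : ℤ) / M))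
    (fun b => K * J b) (co M φ) (fun b _ => hA N κ hN hκ f a ha (b : ℤ) M hM)
  refine ⟨∑ b ∈ Finset.range M, co M φ b * (K * J b), ?_, ?_⟩
  · have hfun : (fun n => a n * φ n) = (fun n => ∑ b ∈ Finset.range M, co M φ b *
        (a n * Complex.exp (2 * (Real.pi : ℂ) * I * n * (b : ℤ) / M))) := ?_
    · rw [hfun]; exact hcv
    funext n
    rw [fourier M hM φ hφ n, Finset.mul_sum]
    refine Finset.sum_congr rfl fun b _ => ?_
    rw [← Complex.exp_nat_mul]
    have : ((n * b : ℕ) : ℂ) * (2 * (Real.pi : ℂ) * I / M)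
        = 2 * (Real.pi : ℂ) * I * n * (b : ℤ) / M := by
      push_cast
      ring
    rw [this]
    ring
  · have hterm : ∀ b ∈ Finset.range M, v (co M φ b * (K * J b)) ≤
        v K * B / v (M : ℂ) ^ κ := by
      intro b _
      have h1 := co_le v hv.1 M hM φ hφ1 b
      have h2 := hB _ (hV (b : ℤ) M hM)
      rw [map_mul, map_pow] at h2
      rw [map_mul, map_mul, le_div_iff₀ (pow_pos hvM κ)]
      have hk : v (M : ℂ) ^ κ = v (M : ℂ) * v (M : ℂ) ^ (κ - 1) := by
        rw [← pow_succ', Nat.sub_add_cancel hκ]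
      rw [hk]
      calc v (co M φ b) * (v K * v (J b)) * (v (M : ℂ) * v (M : ℂ) ^ (κ - 1))
          = v K * ((v (co M φ b) * v (M : ℂ)) * (v (M : ℂ) ^ (κ - 1) * v (J b))) := by ring
        _ ≤ v K * (1 * B) := by
          refine mul_le_mul_of_nonneg_left ?_ (v.nonneg K)
          exact mul_le_mul h1 h2 (by positivity) zero_le_one
        _ = v K * B := by ring
    have hs := sum_le v hv.1 (Finset.range M) (fun b => co M φ b * (K * J b))
      (v K * B / v (M : ℂ) ^ κ) (by positivity) hterm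
    have h3 := mul_le_mul_of_nonneg_right hs (pow_nonneg hvM.le κ)
    rw [div_mul_cancel₀ _ (pow_pos hvM κ).ne'] at h3
    exact h3.trans (by linarith)

end Pool.Agent.Lib.MP_50bb2e_nt.Qtw.Fou
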