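import Pool.Agent.Lib.MP_50bb2e_nt.Qtw.Iface

/-! Row LIN of QTW: uniqueness and linearity of the central values. -/

namespace Pool.Agent.Lib.MP_50bb2e_nt.Qtw.Lin

open Pool.Agent.Lib.MP_50bb2e_nt.Qtw
open Complex Filter Topology

/-- two entire functions which agree on a right half plane are equal -/
theorem eq_of_half (L L' : ℂ → ℂ) (h : Differentiable ℂ L) (h' : Differentiable ℂ L') (σ : ℝ)
    (hs : ∀ s : ℂ, σ < s.re → L s = L' s) : L = L' := by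
  have hA : AnalyticOnNhd ℂ L Set.univ := h.differentiableOn.analyticOnNhd isOpen_univ
  have hA' : AnalyticOnNhd ℂ L' Set.univ := h'.differentiableOn.analyticOnNhd isOpen_univ
  refine AnalyticOnNhd.eq_of_eventuallyEq hA hA' (z₀ := ((σ + 1 : ℝ) : ℂ)) ?_
  have ho : IsOpen {s : ℂ | σ < s.re} := isOpen_lt continuous_const Complex.continuous_re
  have hm : ((σ + 1 : ℝ) : ℂ) ∈ {s : ℂ | σ < s.re} := by
    simp
  filter_upwards [ho.mem_nhds hm] with s hs'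
  exact hs s hs'

theorem uniq (κ : ℕ) (e : ℕ → ℂ) (l l' : ℂ) (h : CV κ e l) (h' : CV κ e l') : l = l' := by
  obtain ⟨L, hL, ⟨σ, hσ⟩, rfl⟩ := h
  obtain ⟨L', hL', ⟨σ', hσ'⟩, rfl⟩ := h'
  have := eq_of_half L L' hL hL' (max σ σ') (fun s hs =>
    (hσ s (lt_of_le_of_lt (le_max_left _ _) hs)).unique
      (hσ' s (lt_of_le_of_lt (le_max_right _ _) hs)))
  rw [this]

theorem add (κ : ℕ) (e e' : ℕ → ℂ) (l l' : ℂ) (h : CV κ e l) (h' : CV κ e' l') :
    CV κ (fun n => e n + e' n) (l + l') := by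
  obtain ⟨L, hL, ⟨σ, hσ⟩, rfl⟩ := h
  obtain ⟨L', hL', ⟨σ', hσ'⟩, rfl⟩ := h'
  refine ⟨fun s => L s + L' s, hL.add hL', ⟨max σ σ', fun s hs => ?_⟩, rfl⟩
  have h1 := (hσ s (lt_of_le_of_lt (le_max_left _ _) hs)).add
      (hσ' s (lt_of_le_of_lt (le_max_right _ _) hs))
  refine h1.congr_fun ?_ |> id
  intro n
  ring

theorem smul (κ : ℕ) (e : ℕ → ℂ) (c l : ℂ) (h : CV κ e l) :
    CV κ (fun n => c * e n) (c * l) := by
  obtain ⟨L, hL, ⟨σ, hσ⟩, rfl⟩ := h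
  refine ⟨fun s => c * L s, hL.const_mul c, ⟨σ, fun s hs => ?_⟩, rfl⟩
  have h1 := (hσ s hs).mul_left c
  simpa [mul_assoc] using h1

theorem lin_proof : LinStatement := ⟨uniq, add, smul⟩

end Pool.Agent.Lib.MP_50bb2e_nt.Qtw.Lin
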