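import Pool.Agent.Lib.MP_50bb2e_nt.Qtw.Iface

/-!
MP_50bb2e_nt, board QTW, row MAN: the central periods over the vertical lines over the rational
numbers lie in a finitely generated group (continued fraction trick of Manin, all even weights).
-/

namespace Pool.Agent.Lib.MP_50bb2e_nt.Qtw.Man

open Complex MeasureTheory Filter Topology Set
open scoped ModularForm

noncomputable section

/-- `SL_2(ℤ)` -/
abbrev SL := Matrix.SpecialLinearGroup (Fin 2) ℤ

/-- `f | γ` as a function on `ℂ` -/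
def gg (k : ℤ) (f : UpperHalfPlane → ℂ) (γ : SL) (z : ℂ) : ℂ :=
  (f ∣[k] γ) (UpperHalfPlane.ofComplex z)

/-- the action of `SL_2(ℤ)` on `ℂ` -/
def mo (γ : SL) (z : ℂ) : ℂ :=
  ((γ 0 0 : ℂ) * z + (γ 0 1 : ℂ)) / ((γ 1 0 : ℂ) * z + (γ 1 1 : ℂ))

/-- `P | γ` for a polynomial `P` of degree at most `n` -/
def sl (n : ℕ) (γ : SL) (P : Polynomial ℤ) : Polynomial ℤ :=
  ∑ j ∈ Finset.range (n + 1), Polynomial.C (P.coeff j) *
    (Polynomial.C (γ 0 0) * Polynomial.X + Polynomial.C (γ 0 1)) ^ j *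
    (Polynomial.C (γ 1 0) * Polynomial.X + Polynomial.C (γ 1 1)) ^ (n - j)

theorem natDegree_sl (n : ℕ) (γ : SL) (P : Polynomial ℤ) : (sl n γ P).natDegree ≤ n := by
  unfold sl
  apply Polynomial.natDegree_sum_le_of_forall_le
  intro j hj
  have hj' : j ≤ n := Nat.lt_succ_iff.1 (Finset.mem_range.1 hj)
  have h1 : ∀ a b : ℤ, ∀ m : ℕ,
      ((Polynomial.C a * Polynomial.X + Polynomial.C b) ^ m).natDegree ≤ m := by
    intro a b m
    calc ((Polynomial.C a * Polynomial.X + Polynomial.C b) ^ m).natDegree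
        ≤ m * (Polynomial.C a * Polynomial.X + Polynomial.C b).natDegree :=
          Polynomial.natDegree_pow_le
      _ ≤ m * 1 := Nat.mul_le_mul le_rfl Polynomial.natDegree_linear_le
      _ = m := Nat.mul_one m
  calc _ ≤ (Polynomial.C (P.coeff j) *
        (Polynomial.C (γ 0 0) * Polynomial.X + Polynomial.C (γ 0 1)) ^ j).natDegree +
      ((Polynomial.C (γ 1 0) * Polynomial.X + Polynomial.C (γ 1 1)) ^ (n - j)).natDegree :=
        Polynomial.natDegree_mul_le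
    _ ≤ j + (n - j) := by
        apply Nat.add_le_add
        · calc _ ≤ (Polynomial.C (P.coeff j)).natDegree +
              ((Polynomial.C (γ 0 0) * Polynomial.X + Polynomial.C (γ 0 1)) ^ j).natDegree :=
                Polynomial.natDegree_mul_le
            _ ≤ 0 + j := Nat.add_le_add (by simp) (h1 _ _ _)
            _ = j := Nat.zero_add j
        · exact h1 _ _ _
    _ = n := by omega

theorem aeval_sl {n : ℕ} (γ : SL) {P : Polynomial ℤ} (hP : P.natDegree ≤ n) {z : ℂ}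
    (hz : (γ 1 0 : ℂ) * z + (γ 1 1 : ℂ) ≠ 0) :
    Polynomial.aeval z (sl n γ P) =
      ((γ 1 0 : ℂ) * z + (γ 1 1 : ℂ)) ^ n * Polynomial.aeval (mo γ z) P := by
  have h1 : Polynomial.aeval (mo γ z) P =
      ∑ j ∈ Finset.range (n + 1), (P.coeff j : ℂ) * (mo γ z) ^ j := by
    rw [Polynomial.aeval_eq_sum_range' (Nat.lt_succ_of_le hP)]
    apply Finset.sum_congr rfl
    intro j _
    simp
  rw [h1, Finset.mul_sum]
  unfold sl
  rw [map_sum]
  apply Finset.sum_congr rfl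
  intro j hj
  have hj' : j ≤ n := Nat.lt_succ_iff.1 (Finset.mem_range.1 hj)
  have hC : ∀ a : ℤ, Polynomial.aeval z (Polynomial.C a) = (a : ℂ) := by
    intro a
    simp
  simp only [map_mul, map_pow, map_add, Polynomial.aeval_X, hC]
  unfold mo
  rw [div_pow]
  have h2 : ((γ 1 0 : ℂ) * z + (γ 1 1 : ℂ)) ^ n =
      ((γ 1 0 : ℂ) * z + (γ 1 1 : ℂ)) ^ (n - j) * ((γ 1 0 : ℂ) * z + (γ 1 1 : ℂ)) ^ j := by
    rw [← pow_add]
    congr 1
    omega
  rw [h2]
  obtain ⟨u, hu⟩ : ∃ u, u = (γ 1 0 : ℂ) * z + (γ 1 1 : ℂ) := ⟨_, rfl⟩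
  rw [← hu] at hz ⊢
  have hz' : u ^ j ≠ 0 := pow_ne_zero _ hz
  field_simp

theorem det_eq (γ : SL) : γ 0 0 * γ 1 1 - γ 0 1 * γ 1 0 = 1 := by
  have h := γ.det_coe
  rw [Matrix.det_fin_two] at h
  exact h

theorem den_ne (γ : SL) {z : ℂ} (hz : 0 < z.im) : (γ 1 0 : ℂ) * z + (γ 1 1 : ℂ) ≠ 0 := by
  intro h
  have him := congrArg Complex.im h
  have hre := congrArg Complex.re h
  simp at him hre
  have hc : γ 1 0 = 0 := by
    rcases him with h | h
    · exact h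
    · exact absurd h hz.ne'
  rw [hc] at hre
  simp at hre
  have hd := det_eq γ
  rw [hc, hre] at hd
  simp at hd

theorem coe_smul (γ : SL) {z : ℂ} (hz : 0 < z.im) :
    ((γ • UpperHalfPlane.ofComplex z : UpperHalfPlane) : ℂ) = mo γ z := by
  rw [UpperHalfPlane.coe_specialLinearGroup_apply]
  have h1 : ((UpperHalfPlane.ofComplex z : UpperHalfPlane) : ℂ) = z := by
    rw [UpperHalfPlane.ofComplex_apply_of_im_pos hz]
  rw [h1]
  unfold mo
  simp

theorem mo_im (γ : SL) {z : ℂ} (hz : 0 < z.im) : 0 < (mo γ z).im := by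
  rw [← coe_smul γ hz]
  exact (γ • UpperHalfPlane.ofComplex z : UpperHalfPlane).im_pos

theorem gg_eq (k : ℤ) (f : UpperHalfPlane → ℂ) (γ : SL) {z : ℂ} (hz : 0 < z.im) :
    gg k f γ z = f (UpperHalfPlane.ofComplex (mo γ z)) *
      ((γ 1 0 : ℂ) * z + (γ 1 1 : ℂ)) ^ (-k) := by
  unfold gg
  rw [ModularForm.SL_slash_apply]
  congr 1
  · congr 1
    rw [← coe_smul γ hz, UpperHalfPlane.ofComplex_apply]
  · have h1 : ((UpperHalfPlane.ofComplex z : UpperHalfPlane) : ℂ) = z := by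
      rw [UpperHalfPlane.ofComplex_apply_of_im_pos hz]
    rw [UpperHalfPlane.denom, h1]
    simp

theorem hasDerivAt_mo (γ : SL) {z : ℂ} (hz : 0 < z.im) :
    HasDerivAt (mo γ) (1 / ((γ 1 0 : ℂ) * z + (γ 1 1 : ℂ)) ^ 2) z := by
  have h0 := den_ne γ hz
  have h1 : HasDerivAt (fun z : ℂ => (γ 0 0 : ℂ) * z + (γ 0 1 : ℂ)) (γ 0 0 : ℂ) z := by
    simpa using ((hasDerivAt_id z).const_mul (γ 0 0 : ℂ)).add_const (γ 0 1 : ℂ)
  have h2 : HasDerivAt (fun z : ℂ => (γ 1 0 : ℂ) * z + (γ 1 1 : ℂ)) (γ 1 0 : ℂ) z := by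
    simpa using ((hasDerivAt_id z).const_mul (γ 1 0 : ℂ)).add_const (γ 1 1 : ℂ)
  have h3 := h1.div h2 h0
  have hd : (γ 0 0 : ℂ) * (γ 1 1 : ℂ) - (γ 0 1 : ℂ) * (γ 1 0 : ℂ) = 1 := by
    exact_mod_cast det_eq γ
  have h4 : ((γ 0 0 : ℂ) * ((γ 1 0 : ℂ) * z + (γ 1 1 : ℂ)) -
      ((γ 0 0 : ℂ) * z + (γ 0 1 : ℂ)) * (γ 1 0 : ℂ)) / ((γ 1 0 : ℂ) * z + (γ 1 1 : ℂ)) ^ 2 =
      1 / ((γ 1 0 : ℂ) * z + (γ 1 1 : ℂ)) ^ 2 := by
    congr 1
    linear_combination hd
  rw [h4] at h3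
  exact h3

/-- existence of primitives -/
theorem exists_prim {f : UpperHalfPlane → ℂ}
    (hf : DifferentiableOn ℂ (fun z : ℂ => f (UpperHalfPlane.ofComplex z)) {z | 0 < z.im})
    (P : Polynomial ℤ) :
    ∃ F : ℂ → ℂ, ∀ z : ℂ, 0 < z.im →
      HasDerivAt F (f (UpperHalfPlane.ofComplex z) * Polynomial.aeval z P) z := by
  have hconv : Convex ℝ {z : ℂ | 0 < z.im} := convex_halfSpace_im_gt 0
  have hopen : IsOpen {z : ℂ | 0 < z.im} := isOpen_lt continuous_const Complex.continuous_im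
  have hd : DifferentiableOn ℂ
      (fun z : ℂ => f (UpperHalfPlane.ofComplex z) * Polynomial.aeval z P) {z | 0 < z.im} :=
    hf.mul (Polynomial.differentiable_aeval P).differentiableOn
  obtain ⟨F, hF⟩ := hconv.exists_forall_hasDerivWithinAt hd
  exact ⟨F, fun z hz => (hF z hz).hasDerivAt (hopen.mem_nhds hz)⟩

theorem deriv_G {κ : ℕ} (hκ : 0 < κ) {f : UpperHalfPlane → ℂ} {P : Polynomial ℤ}
    (hP : P.natDegree ≤ 2 * κ - 2) {F : ℂ → ℂ}
    (hF : ∀ z : ℂ, 0 < z.im →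
      HasDerivAt F (f (UpperHalfPlane.ofComplex z) * Polynomial.aeval z P) z)
    (γ : SL) {z : ℂ} (hz : 0 < z.im) :
    HasDerivAt (fun z => F (mo γ z))
      (gg (2 * (κ : ℤ)) f γ z * Polynomial.aeval z (sl (2 * κ - 2) γ P)) z := by
  have h1 := (hF (mo γ z) (mo_im γ hz)).comp z (hasDerivAt_mo γ hz)
  have h0 := den_ne γ hz
  have h2 : f (UpperHalfPlane.ofComplex (mo γ z)) * Polynomial.aeval (mo γ z) P *
      (1 / ((γ 1 0 : ℂ) * z + (γ 1 1 : ℂ)) ^ 2) =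
      gg (2 * (κ : ℤ)) f γ z * Polynomial.aeval z (sl (2 * κ - 2) γ P) := by
    rw [gg_eq _ _ _ hz, aeval_sl γ hP h0]
    obtain ⟨m, rfl⟩ : ∃ m, κ = m + 1 := ⟨κ - 1, by omega⟩
    have h3 : 2 * (m + 1) - 2 = 2 * m := by omega
    rw [h3]
    have h4 : ((γ 1 0 : ℂ) * z + (γ 1 1 : ℂ)) ^ (-(2 * ((m + 1 : ℕ) : ℤ))) =
        1 / ((γ 1 0 : ℂ) * z + (γ 1 1 : ℂ)) ^ (2 * m + 2) := by
      rw [zpow_neg, one_div]
      congr 1
    rw [h4, pow_add]
    field_simp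
  rw [h2] at h1
  exact h1

theorem cont_gg {f : UpperHalfPlane → ℂ}
    (hf : DifferentiableOn ℂ (fun z : ℂ => f (UpperHalfPlane.ofComplex z)) {z | 0 < z.im})
    (k : ℤ) (γ : SL) : ContinuousOn (gg k f γ) {z | 0 < z.im} := by
  have h1 : ContinuousOn (fun z : ℂ => f (UpperHalfPlane.ofComplex (mo γ z)) *
      ((γ 1 0 : ℂ) * z + (γ 1 1 : ℂ)) ^ (-k)) {z | 0 < z.im} := by
    apply ContinuousOn.mul
    · have h2 : ContinuousOn (mo γ) {z | 0 < z.im} := fun z hz =>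
        (hasDerivAt_mo γ hz).continuousAt.continuousWithinAt
      exact hf.continuousOn.comp h2 (fun z hz => mo_im γ hz)
    · apply ContinuousOn.zpow₀
      · fun_prop
      · intro z hz
        exact Or.inl (den_ne γ hz)
  exact h1.congr (fun z hz => gg_eq k f γ hz)

theorem aeval_bound (Q : Polynomial ℤ) : ∃ K : ℝ, 0 ≤ K ∧ ∀ z : ℂ,
    ‖Polynomial.aeval z Q‖ ≤ K * (1 + ‖z‖) ^ Q.natDegree := by
  refine ⟨∑ i ∈ Finset.range (Q.natDegree + 1), ‖(Q.coeff i : ℂ)‖,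
    Finset.sum_nonneg (fun i _ => norm_nonneg _), ?_⟩
  intro z
  rw [Polynomial.aeval_eq_sum_range, Finset.sum_mul]
  apply (norm_sum_le _ _).trans
  apply Finset.sum_le_sum
  intro i hi
  have hi' : i ≤ Q.natDegree := Nat.lt_succ_iff.1 (Finset.mem_range.1 hi)
  have h1 : Q.coeff i • z ^ i = (Q.coeff i : ℂ) * z ^ i := by simp
  rw [h1, norm_mul, norm_pow]
  apply mul_le_mul_of_nonneg_left _ (norm_nonneg _)
  calc ‖z‖ ^ i ≤ (1 + ‖z‖) ^ i :=
        pow_le_pow_left₀ (norm_nonneg _) (by linarith [norm_nonneg z]) _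
    _ ≤ (1 + ‖z‖) ^ Q.natDegree :=
        pow_le_pow_right₀ (by linarith [norm_nonneg z]) hi'

/-- decay in vertical strips -/
theorem bnd {k : ℤ} {f : UpperHalfPlane → ℂ} {γ : SL}
    (hD : ∃ C c : ℝ, 0 < c ∧ ∀ τ : UpperHalfPlane, 1 ≤ τ.im →
      ‖(f ∣[k] γ) τ‖ ≤ C * Real.exp (-c * τ.im)) (Q : Polynomial ℤ) (X : ℝ) (hX : 0 ≤ X) :
    ∃ M c : ℝ, 0 < c ∧ 0 ≤ M ∧ ∀ z : ℂ, 1 ≤ z.im → |z.re| ≤ X →
      ‖gg k f γ z * Polynomial.aeval z Q‖ ≤ M * Real.exp (-c * z.im) := by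
  obtain ⟨C, c, hc, hC⟩ := hD
  obtain ⟨K, hK0, hK⟩ := aeval_bound Q
  obtain ⟨m, hm⟩ : ∃ m, m = Q.natDegree := ⟨_, rfl⟩
  rw [← hm] at hK
  refine ⟨|C| * K * ((2 / c) ^ m * m.factorial * Real.exp (c / 2 * (1 + X))), c / 2,
    half_pos hc, by positivity, ?_⟩
  intro z hz hre
  have hz0 : 0 < z.im := lt_of_lt_of_le one_pos hz
  have h1 : ‖gg k f γ z‖ ≤ |C| * Real.exp (-c * z.im) := by
    have h2 : ((UpperHalfPlane.ofComplex z : UpperHalfPlane) : ℂ) = z := by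
      rw [UpperHalfPlane.ofComplex_apply_of_im_pos hz0]
    have h3 : (UpperHalfPlane.ofComplex z : UpperHalfPlane).im = z.im := by
      rw [← UpperHalfPlane.coe_im, h2]
    have h4 := hC (UpperHalfPlane.ofComplex z) (by rw [h3]; exact hz)
    rw [h3] at h4
    exact h4.trans (mul_le_mul_of_nonneg_right (le_abs_self C) (Real.exp_pos _).le)
  have h5 : ‖z‖ ≤ X + z.im := by
    have h6 := Complex.norm_le_abs_re_add_abs_im z
    rw [abs_of_pos hz0] at h6
    linarith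
  have h7 : (1 + ‖z‖) ^ m ≤ (2 / c) ^ m * m.factorial * Real.exp (c / 2 * (1 + X)) *
      Real.exp (c / 2 * z.im) := by
    have h8 : (c / 2 * (1 + X + z.im)) ^ m / m.factorial ≤
        Real.exp (c / 2 * (1 + X + z.im)) :=
      Real.pow_div_factorial_le_exp _ (by positivity) m
    have hf : (0 : ℝ) < m.factorial := by exact_mod_cast Nat.factorial_pos m
    have h9 : (c / 2 * (1 + X + z.im)) ^ m ≤
        Real.exp (c / 2 * (1 + X + z.im)) * m.factorial := (div_le_iff₀ hf).1 h8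
    have h10 : (1 + ‖z‖) ^ m ≤ (1 + X + z.im) ^ m := by
      apply pow_le_pow_left₀ (by positivity)
      linarith
    have h11 : (1 + X + z.im) ^ m = (2 / c) ^ m * (c / 2 * (1 + X + z.im)) ^ m := by
      rw [← mul_pow]
      congr 1
      field_simp
    have h12 : Real.exp (c / 2 * (1 + X + z.im)) =
        Real.exp (c / 2 * (1 + X)) * Real.exp (c / 2 * z.im) := by
      rw [← Real.exp_add]
      congr 1
      ring
    calc (1 + ‖z‖) ^ m ≤ (1 + X + z.im) ^ m := h10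
      _ = (2 / c) ^ m * (c / 2 * (1 + X + z.im)) ^ m := h11
      _ ≤ (2 / c) ^ m * (Real.exp (c / 2 * (1 + X + z.im)) * m.factorial) :=
          mul_le_mul_of_nonneg_left h9 (by positivity)
      _ = _ := by rw [h12]; ring
  have h13 : Real.exp (-c * z.im) * Real.exp (c / 2 * z.im) = Real.exp (-(c / 2) * z.im) := by
    rw [← Real.exp_add]
    congr 1
    ring
  rw [norm_mul]
  calc ‖gg k f γ z‖ * ‖Polynomial.aeval z Q‖
      ≤ (|C| * Real.exp (-c * z.im)) * (K * (1 + ‖z‖) ^ m) :=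
        mul_le_mul h1 (hK z) (norm_nonneg _) (by positivity)
    _ ≤ (|C| * Real.exp (-c * z.im)) * (K * ((2 / c) ^ m * m.factorial *
          Real.exp (c / 2 * (1 + X)) * Real.exp (c / 2 * z.im))) := by
        apply mul_le_mul_of_nonneg_left _ (by positivity)
        exact mul_le_mul_of_nonneg_left h7 hK0
    _ = |C| * K * ((2 / c) ^ m * m.factorial * Real.exp (c / 2 * (1 + X))) *
          (Real.exp (-c * z.im) * Real.exp (c / 2 * z.im)) := by ring
    _ = _ := by rw [h13]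

theorem line_im (x y : ℝ) : ((x : ℂ) + y * I).im = y := by simp

theorem line_re (x y : ℝ) : ((x : ℂ) + y * I).re = x := by simp

theorem integrable_line {k : ℤ} {f : UpperHalfPlane → ℂ}
    (hf : DifferentiableOn ℂ (fun z : ℂ => f (UpperHalfPlane.ofComplex z)) {z | 0 < z.im})
    {γ : SL}
    (hD : ∃ C c : ℝ, 0 < c ∧ ∀ τ : UpperHalfPlane, 1 ≤ τ.im →
      ‖(f ∣[k] γ) τ‖ ≤ C * Real.exp (-c * τ.im)) (Q : Polynomial ℤ) (x : ℝ) :
    IntegrableOn (fun y : ℝ => gg k f γ ((x : ℂ) + y * I) *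
      Polynomial.aeval ((x : ℂ) + y * I) Q * I) (Ioi 1) := by
  obtain ⟨M, c, hc, hM, hb⟩ := bnd hD Q |x| (abs_nonneg x)
  have h1 : IntegrableOn (fun y : ℝ => M * Real.exp (-c * y)) (Ioi 1) :=
    (exp_neg_integrableOn_Ioi 1 hc).const_mul M
  apply Integrable.mono' h1
  · apply ContinuousOn.aestronglyMeasurable _ measurableSet_Ioi
    have hl : Continuous (fun y : ℝ => (x : ℂ) + y * I) := by fun_prop
    apply ContinuousOn.mul _ continuousOn_const
    apply ContinuousOn.mul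
    · apply (cont_gg hf k γ).comp hl.continuousOn
      intro y hy
      have hy' : (1 : ℝ) < y := hy
      show 0 < ((x : ℂ) + y * I).im
      rw [line_im]
      linarith
    · exact ((Polynomial.continuous_aeval Q).comp hl).continuousOn
  · filter_upwards [ae_restrict_mem measurableSet_Ioi] with y hy
    have hy' : (1 : ℝ) < y := hy
    have h2 := hb ((x : ℂ) + y * I) (by rw [line_im]; linarith) (by rw [line_re])
    rw [line_im] at h2
    rw [norm_mul, Complex.norm_I, mul_one]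
    exact h2

theorem hasDerivAt_line (x y : ℝ) : HasDerivAt (fun y : ℝ => (x : ℂ) + y * I) I y := by
  have h1 : HasDerivAt (fun y : ℝ => (y : ℂ)) 1 y := Complex.ofRealCLM.hasDerivAt
  simpa using (h1.mul_const I).const_add (x : ℂ)

theorem hasDerivAt_hline (x y : ℝ) : HasDerivAt (fun x : ℝ => (x : ℂ) + y * I) 1 x := by
  have h1 : HasDerivAt (fun y : ℝ => (y : ℂ)) 1 x := Complex.ofRealCLM.hasDerivAt
  simpa using h1.add_const ((y : ℂ) * I)

/-- the limits at the cusps exist -/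
theorem exists_E {κ : ℕ} (hκ : 0 < κ) {f : UpperHalfPlane → ℂ}
    (hf : DifferentiableOn ℂ (fun z : ℂ => f (UpperHalfPlane.ofComplex z)) {z | 0 < z.im})
    {P : Polynomial ℤ} (hP : P.natDegree ≤ 2 * κ - 2) {F : ℂ → ℂ}
    (hF : ∀ z : ℂ, 0 < z.im →
      HasDerivAt F (f (UpperHalfPlane.ofComplex z) * Polynomial.aeval z P) z) (γ : SL)
    (hD : ∃ C c : ℝ, 0 < c ∧ ∀ τ : UpperHalfPlane, 1 ≤ τ.im →
      ‖(f ∣[2 * (κ : ℤ)] γ) τ‖ ≤ C * Real.exp (-c * τ.im)) :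
    ∃ E : ℂ, ∀ x : ℝ, Tendsto (fun y : ℝ => F (mo γ ((x : ℂ) + y * I))) atTop (𝓝 E) := by
  have hG := fun (z : ℂ) (hz : 0 < z.im) => deriv_G hκ hP hF γ hz
  obtain ⟨Q, hQ⟩ : ∃ Q, Q = sl (2 * κ - 2) γ P := ⟨_, rfl⟩
  rw [← hQ] at hG
  -- the limit on the imaginary axis
  have h1 : Tendsto (fun y : ℝ => F (mo γ (((0 : ℝ) : ℂ) + y * I))) atTop
      (𝓝 (limUnder atTop (fun y : ℝ => F (mo γ (((0 : ℝ) : ℂ) + y * I))))) := by
    apply tendsto_limUnder_of_hasDerivAt_of_integrableOn_Ioi (a := 1) _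
      (integrable_line hf hD Q 0)
    intro y hy
    have hy' : (1 : ℝ) < y := hy
    exact (hG _ (by rw [line_im]; linarith)).comp y (hasDerivAt_line 0 y)
  refine ⟨limUnder atTop (fun y : ℝ => F (mo γ (((0 : ℝ) : ℂ) + y * I))), fun x => ?_⟩
  obtain ⟨M, c, hc, hM, hb⟩ := bnd hD Q |x| (abs_nonneg x)
  have h2 : ∀ y : ℝ, 1 ≤ y → ‖F (mo γ ((x : ℂ) + y * I)) -
      F (mo γ (((0 : ℝ) : ℂ) + y * I))‖ ≤ M * Real.exp (-c * y) * |x| := by
    intro y hy
    have h3 := Convex.norm_image_sub_le_of_norm_hasDerivWithin_le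
      (f := fun t : ℝ => F (mo γ ((t : ℂ) + y * I)))
      (f' := fun t : ℝ => gg (2 * (κ : ℤ)) f γ ((t : ℂ) + y * I) *
        Polynomial.aeval ((t : ℂ) + y * I) Q * 1)
      (s := Icc (-|x|) |x|) (x := 0) (y := x) (C := M * Real.exp (-c * y)) ?_ ?_
      (convex_Icc _ _) ?_ ?_
    · simpa using h3
    · intro t _
      exact ((hG _ (by rw [line_im]; linarith)).comp t (hasDerivAt_hline t y)).hasDerivWithinAt
    · intro t ht
      have h4 := hb ((t : ℂ) + y * I) (by rw [line_im]; linarith)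
        (by rw [line_re]; exact abs_le.2 ht)
      rw [line_im] at h4
      rw [mul_one]
      exact h4
    · exact ⟨by linarith [abs_nonneg x], abs_nonneg x⟩
    · exact ⟨neg_abs_le x, le_abs_self x⟩
  have h5 : Tendsto (fun y : ℝ => M * Real.exp (-c * y) * |x|) atTop (𝓝 0) := by
    have h6 : Tendsto (fun y : ℝ => Real.exp (-c * y)) atTop (𝓝 0) := by
      apply Real.tendsto_exp_atBot.comp
      exact tendsto_id.const_mul_atTop_of_neg (by linarith)
    simpa using (h6.const_mul M).mul_const |x|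
  have h7 : Tendsto (fun y : ℝ => F (mo γ ((x : ℂ) + y * I)) -
      F (mo γ (((0 : ℝ) : ℂ) + y * I))) atTop (𝓝 0) := by
    apply squeeze_zero_norm' _ h5
    filter_upwards [eventually_ge_atTop 1] with y hy
    exact h2 y hy
  have h8 := h7.add h1
  rw [zero_add] at h8
  refine h8.congr (fun y => ?_)
  ring

/-- the generators -/
def gens (κ : ℕ) (f : UpperHalfPlane → ℂ) : Set ℂ :=
  {c | ∃ γ : SL, ∃ j : ℕ, j ≤ 2 * κ - 2 ∧
    c = ∫ y in Ioi (1 : ℝ), gg (2 * (κ : ℤ)) f γ (y * I) * (y * I) ^ j * I}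

theorem finite_gens {κ : ℕ} {f : UpperHalfPlane → ℂ}
    (hfin : (Set.range (fun γ : SL => (f ∣[2 * (κ : ℤ)] γ))).Finite) :
    (gens κ f).Finite := by
  have h1 : (Set.image2 (fun (h : UpperHalfPlane → ℂ) (j : ℕ) =>
      ∫ y in Ioi (1 : ℝ), h (UpperHalfPlane.ofComplex (y * I)) * ((y : ℂ) * I) ^ j * I)
      (Set.range (fun γ : SL => (f ∣[2 * (κ : ℤ)] γ))) (Set.Iic (2 * κ - 2))).Finite :=
    Set.Finite.image2 _ hfin (Set.finite_Iic _)
  apply h1.subset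
  rintro c ⟨γ, j, hj, rfl⟩
  exact ⟨_, ⟨γ, rfl⟩, j, hj, rfl⟩

theorem int_mem {κ : ℕ} {f : UpperHalfPlane → ℂ}
    (hf : DifferentiableOn ℂ (fun z : ℂ => f (UpperHalfPlane.ofComplex z)) {z | 0 < z.im})
    {γ : SL}
    (hD : ∃ C c : ℝ, 0 < c ∧ ∀ τ : UpperHalfPlane, 1 ≤ τ.im →
      ‖(f ∣[2 * (κ : ℤ)] γ) τ‖ ≤ C * Real.exp (-c * τ.im)) {Q : Polynomial ℤ}
    (hQ : Q.natDegree ≤ 2 * κ - 2) :
    (∫ y in Ioi (1 : ℝ), gg (2 * (κ : ℤ)) f γ (((0 : ℝ) : ℂ) + y * I) *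
      Polynomial.aeval (((0 : ℝ) : ℂ) + y * I) Q * I) ∈ AddSubgroup.closure (gens κ f) := by
  have h1 : ∀ y : ℝ, gg (2 * (κ : ℤ)) f γ (((0 : ℝ) : ℂ) + y * I) *
      Polynomial.aeval (((0 : ℝ) : ℂ) + y * I) Q * I =
      ∑ j ∈ Finset.range (2 * κ - 2 + 1), (Q.coeff j : ℂ) *
        (gg (2 * (κ : ℤ)) f γ (y * I) * (y * I) ^ j * I) := by
    intro y
    rw [Complex.ofReal_zero, zero_add,
      Polynomial.aeval_eq_sum_range' (Nat.lt_succ_of_le hQ), Finset.mul_sum, Finset.sum_mul]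
    apply Finset.sum_congr rfl
    intro j _
    have h2 : Q.coeff j • ((y : ℂ) * I) ^ j = (Q.coeff j : ℂ) * ((y : ℂ) * I) ^ j := by simp
    rw [h2]
    ring
  have h3 : ∀ j : ℕ, IntegrableOn (fun y : ℝ => gg (2 * (κ : ℤ)) f γ (y * I) *
      ((y : ℂ) * I) ^ j * I) (Ioi 1) := by
    intro j
    have h4 := integrable_line hf hD (Polynomial.X ^ j) 0
    simpa using h4
  rw [integral_congr_ae (Filter.Eventually.of_forall h1), integral_finsetSum]
  · apply AddSubgroup.sum_mem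
    intro j hj
    rw [integral_const_mul]
    have h5 : (Q.coeff j : ℂ) * (∫ y in Ioi (1 : ℝ), gg (2 * (κ : ℤ)) f γ (y * I) *
        ((y : ℂ) * I) ^ j * I) = Q.coeff j • (∫ y in Ioi (1 : ℝ),
          gg (2 * (κ : ℤ)) f γ (y * I) * ((y : ℂ) * I) ^ j * I) := by simp
    rw [h5]
    apply AddSubgroup.zsmul_mem
    apply AddSubgroup.subset_closure
    exact ⟨γ, j, Nat.lt_succ_iff.1 (Finset.mem_range.1 hj), rfl⟩
  · intro j _
    exact (h3 j).const_mul _

theorem E_sub_mem {κ : ℕ} (hκ : 0 < κ) {f : UpperHalfPlane → ℂ}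
    (hf : DifferentiableOn ℂ (fun z : ℂ => f (UpperHalfPlane.ofComplex z)) {z | 0 < z.im})
    {P : Polynomial ℤ} (hP : P.natDegree ≤ 2 * κ - 2) {F : ℂ → ℂ}
    (hF : ∀ z : ℂ, 0 < z.im →
      HasDerivAt F (f (UpperHalfPlane.ofComplex z) * Polynomial.aeval z P) z) (γ : SL)
    (hD : ∃ C c : ℝ, 0 < c ∧ ∀ τ : UpperHalfPlane, 1 ≤ τ.im →
      ‖(f ∣[2 * (κ : ℤ)] γ) τ‖ ≤ C * Real.exp (-c * τ.im)) {E : ℂ}
    (hE : ∀ x : ℝ, Tendsto (fun y : ℝ => F (mo γ ((x : ℂ) + y * I))) atTop (𝓝 E)) :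
    E - F (mo γ I) ∈ AddSubgroup.closure (gens κ f) := by
  have hG := fun (z : ℂ) (hz : 0 < z.im) => deriv_G hκ hP hF γ hz
  have h1 := integral_Ioi_of_hasDerivAt_of_tendsto'
    (f := fun y : ℝ => F (mo γ (((0 : ℝ) : ℂ) + y * I)))
    (f' := fun y : ℝ => gg (2 * (κ : ℤ)) f γ (((0 : ℝ) : ℂ) + y * I) *
      Polynomial.aeval (((0 : ℝ) : ℂ) + y * I) (sl (2 * κ - 2) γ P) * I) (a := 1)
    (fun y hy => (hG _ (by
      have hy' : (1 : ℝ) ≤ y := hy
      rw [line_im]; linarith)).comp y (hasDerivAt_line 0 y))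
    (integrable_line hf hD _ 0) (hE 0)
  have h2 := int_mem hf hD (natDegree_sl (2 * κ - 2) γ P)
  rw [h1] at h2
  simpa using h2

theorem mo_mul_S (γ : SL) : mo (γ * ModularGroup.S) I = mo γ I := by
  have h0 := den_ne γ (z := I) (by simp)
  unfold mo
  have h1 : (γ * ModularGroup.S) 0 0 = γ 0 1 := by
    simp [ModularGroup.S, Matrix.mul_apply, Fin.sum_univ_two]
  have h2 : (γ * ModularGroup.S) 0 1 = -γ 0 0 := by
    simp [ModularGroup.S, Matrix.mul_apply, Fin.sum_univ_two]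
  have h3 : (γ * ModularGroup.S) 1 0 = γ 1 1 := by
    simp [ModularGroup.S, Matrix.mul_apply, Fin.sum_univ_two]
  have h4 : (γ * ModularGroup.S) 1 1 = -γ 1 0 := by
    simp [ModularGroup.S, Matrix.mul_apply, Fin.sum_univ_two]
  rw [h1, h2, h3, h4]
  push_cast
  have h5 : (γ 1 1 : ℂ) * I + -(γ 1 0 : ℂ) = I * ((γ 1 0 : ℂ) * I + (γ 1 1 : ℂ)) := by
    linear_combination (-(γ 1 0 : ℂ)) * Complex.I_mul_I
  have h6 : (γ 0 1 : ℂ) * I + -(γ 0 0 : ℂ) = I * ((γ 0 0 : ℂ) * I + (γ 0 1 : ℂ)) := by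
    linear_combination (-(γ 0 0 : ℂ)) * Complex.I_mul_I
  rw [h5, h6, mul_div_mul_left _ _ Complex.I_ne_zero]

theorem mo_mul_T (γ : SL) (z : ℂ) : mo (γ * ModularGroup.T) z = mo γ (z + 1) := by
  unfold mo
  have h1 : (γ * ModularGroup.T) 0 0 = γ 0 0 := by
    simp [ModularGroup.T, Matrix.mul_apply, Fin.sum_univ_two]
  have h2 : (γ * ModularGroup.T) 0 1 = γ 0 0 + γ 0 1 := by
    simp [ModularGroup.T, Matrix.mul_apply, Fin.sum_univ_two]
  have h3 : (γ * ModularGroup.T) 1 0 = γ 1 0 := by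
    simp [ModularGroup.T, Matrix.mul_apply, Fin.sum_univ_two]
  have h4 : (γ * ModularGroup.T) 1 1 = γ 1 0 + γ 1 1 := by
    simp [ModularGroup.T, Matrix.mul_apply, Fin.sum_univ_two]
  rw [h1, h2, h3, h4]
  push_cast
  congr 1 <;> ring

/-- all the differences of limits lie in the group generated by the generators -/
theorem E_diff {κ : ℕ} (hκ : 0 < κ) {f : UpperHalfPlane → ℂ}
    (hf : DifferentiableOn ℂ (fun z : ℂ => f (UpperHalfPlane.ofComplex z)) {z | 0 < z.im})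
    {P : Polynomial ℤ} (hP : P.natDegree ≤ 2 * κ - 2) {F : ℂ → ℂ}
    (hF : ∀ z : ℂ, 0 < z.im →
      HasDerivAt F (f (UpperHalfPlane.ofComplex z) * Polynomial.aeval z P) z)
    (hD : ∀ γ : SL, ∃ C c : ℝ, 0 < c ∧ ∀ τ : UpperHalfPlane, 1 ≤ τ.im →
      ‖(f ∣[2 * (κ : ℤ)] γ) τ‖ ≤ C * Real.exp (-c * τ.im)) {E : SL → ℂ}
    (hE : ∀ γ : SL, ∀ x : ℝ, Tendsto (fun y : ℝ => F (mo γ ((x : ℂ) + y * I))) atTop
      (𝓝 (E γ))) (γ : SL) :
    E γ - E 1 ∈ AddSubgroup.closure (gens κ f) := by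
  have hS : ∀ γ : SL, E (γ * ModularGroup.S) - E γ ∈ AddSubgroup.closure (gens κ f) := by
    intro γ
    have h1 := E_sub_mem hκ hf hP hF γ (hD γ) (hE γ)
    have h2 := E_sub_mem hκ hf hP hF (γ * ModularGroup.S) (hD _) (hE _)
    rw [mo_mul_S] at h2
    have h3 := AddSubgroup.sub_mem _ h2 h1
    have h4 : E (γ * ModularGroup.S) - F (mo γ I) - (E γ - F (mo γ I)) =
        E (γ * ModularGroup.S) - E γ := by ring
    rw [h4] at h3
    exact h3
  have hT : ∀ γ : SL, E (γ * ModularGroup.T) = E γ := by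
    intro γ
    have h1 := hE (γ * ModularGroup.T) 0
    have h2 := hE γ 1
    apply tendsto_nhds_unique h1
    refine h2.congr (fun y => ?_)
    rw [mo_mul_T]
    congr 2
    push_cast
    ring
  have hcl : γ ∈ Subgroup.closure {ModularGroup.S, ModularGroup.T} := by
    rw [SpecialLinearGroup.SL2Z_generators]
    exact Subgroup.mem_top _
  induction hcl using Subgroup.closure_induction_right with
  | one => simp
  | mul_right x hx y hy ih =>
    rcases hy with rfl | rfl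
    · have h1 := AddSubgroup.add_mem _ (hS x) ih
      have h2 : E (x * ModularGroup.S) - E x + (E x - E 1) = E (x * ModularGroup.S) - E 1 := by
        ring
      rw [h2] at h1
      exact h1
    · rw [hT]
      exact ih
  | mul_inv_cancel x hx y hy ih =>
    rcases hy with rfl | rfl
    · have h0 := hS (x * ModularGroup.S⁻¹)
      rw [inv_mul_cancel_right] at h0
      have h1 := AddSubgroup.sub_mem _ ih h0
      have h2 : E x - E 1 - (E x - E (x * ModularGroup.S⁻¹)) =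
          E (x * ModularGroup.S⁻¹) - E 1 := by ring
      rw [h2] at h1
      exact h1
    · have h0 := hT (x * ModularGroup.T⁻¹)
      rw [inv_mul_cancel_right] at h0
      rw [← h0]
      exact ih

/-- every rational number is an image of infinity -/
theorem exists_gamma (x : ℤ) {D : ℕ} (hD : 0 < D) :
    ∃ γ : SL, 0 < γ 1 0 ∧ ∀ t : ℝ, 0 < t →
      mo γ (((-(γ 1 1 : ℝ) / (γ 1 0 : ℝ) : ℝ) : ℂ) +
        ((1 / ((γ 1 0 : ℝ) ^ 2 * t) : ℝ) : ℂ) * I) = (((x : ℝ) / D : ℝ) : ℂ) + t * I := by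
  obtain ⟨g, hg⟩ : ∃ g : ℤ, g = Int.gcd x D := ⟨_, rfl⟩
  have hg0 : 0 < g := by
    rw [hg]
    exact_mod_cast Int.gcd_pos_of_ne_zero_right x (by exact_mod_cast hD.ne')
  obtain ⟨a, ha⟩ : g ∣ x := by
    rw [hg]; exact Int.gcd_dvd_left _ _
  obtain ⟨c, hc⟩ : g ∣ (D : ℤ) := by
    rw [hg]; exact Int.gcd_dvd_right _ _
  have hc0 : 0 < c := by
    have h1 : 0 < g * c := by
      rw [← hc]; exact_mod_cast hD
    exact (mul_pos_iff_of_pos_left hg0).1 h1
  obtain ⟨u, v, huv⟩ : ∃ u v : ℤ, a * u + c * v = 1 := by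
    have h1 := Int.gcd_eq_gcd_ab x D
    refine ⟨Int.gcdA x D, Int.gcdB x D, ?_⟩
    rw [← hg] at h1
    have h2 : g * (a * Int.gcdA x D + c * Int.gcdB x D) = g * 1 := by
      calc g * (a * Int.gcdA x D + c * Int.gcdB x D)
          = (g * a) * Int.gcdA x D + (g * c) * Int.gcdB x D := by ring
        _ = x * Int.gcdA x D + (D : ℤ) * Int.gcdB x D := by rw [← ha, ← hc]
        _ = g * 1 := by rw [← h1, mul_one]
    exact mul_left_cancel₀ hg0.ne' h2
  have hdet : Matrix.det !![a, -v; c, u] = 1 := by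
    rw [Matrix.det_fin_two]
    simp
    linarith
  obtain ⟨γ, hγ⟩ : ∃ γ : SL, γ = ⟨!![a, -v; c, u], hdet⟩ := ⟨_, rfl⟩
  have e00 : γ 0 0 = a := by rw [hγ]; rfl
  have e01 : γ 0 1 = -v := by rw [hγ]; rfl
  have e10 : γ 1 0 = c := by rw [hγ]; rfl
  have e11 : γ 1 1 = u := by rw [hγ]; rfl
  refine ⟨γ, by rw [e10]; exact hc0, ?_⟩
  intro t ht
  unfold mo
  rw [e00, e01, e10, e11]
  have hcC : (c : ℂ) ≠ 0 := by exact_mod_cast hc0.ne'
  have hgC : (g : ℂ) ≠ 0 := by exact_mod_cast hg0.ne'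
  have htC : (t : ℂ) ≠ 0 := by exact_mod_cast ht.ne'
  have hxC : (x : ℂ) = g * a := by exact_mod_cast ha
  have hDC : (D : ℂ) = g * c := by exact_mod_cast hc
  have huvC : (a : ℂ) * u + c * v = 1 := by exact_mod_cast huv
  have hI : I ≠ 0 := Complex.I_ne_zero
  push_cast
  rw [hxC, hDC]
  have h1 : (c : ℂ) * (-(u : ℂ) / c + 1 / ((c : ℂ) ^ 2 * t) * I) + u = I / (c * t) := by
    field_simp
    ring
  have h2 : (a : ℂ) * (-(u : ℂ) / c + 1 / ((c : ℂ) ^ 2 * t) * I) + -(v : ℂ) =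
      -1 / c + a * I / (c ^ 2 * t) := by
    field_simp
    linear_combination (-(c : ℂ) * t) * huvC
  rw [h1, h2]
  have h3 : (g : ℂ) * a / (g * c) = a / c := by field_simp
  rw [h3, div_eq_iff (by positivity)]
  field_simp
  linear_combination (-(c : ℂ) * t) * Complex.I_mul_I

/-- the polynomial `(D X - x)^m` -/
def pp (x : ℤ) (D m : ℕ) : Polynomial ℤ :=
  (Polynomial.C (D : ℤ) * Polynomial.X + Polynomial.C (-x)) ^ m

theorem natDegree_pp (x : ℤ) (D m : ℕ) : (pp x D m).natDegree ≤ m := by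
  unfold pp
  calc ((Polynomial.C (D : ℤ) * Polynomial.X + Polynomial.C (-x)) ^ m).natDegree
      ≤ m * (Polynomial.C (D : ℤ) * Polynomial.X + Polynomial.C (-x)).natDegree :=
        Polynomial.natDegree_pow_le
    _ ≤ m * 1 := Nat.mul_le_mul le_rfl Polynomial.natDegree_linear_le
    _ = m := Nat.mul_one m

theorem aeval_pp (x : ℤ) {D : ℕ} (hD : 0 < D) (m : ℕ) (t : ℝ) :
    Polynomial.aeval ((((x : ℝ) / D : ℝ) : ℂ) + t * I) (pp x D m) = (D * t * I) ^ m := by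
  unfold pp
  have hC : ∀ (z : ℂ) (a : ℤ), Polynomial.aeval z (Polynomial.C a) = (a : ℂ) := by
    intro z a
    simp
  simp only [map_pow, map_add, map_mul, Polynomial.aeval_X, hC]
  congr 1
  have hDC : (D : ℂ) ≠ 0 := by exact_mod_cast hD.ne'
  push_cast
  field_simp
  ring

theorem man_proof (hDec : DecStatement) : ManStatement := by
  intro N κ hN hκ f
  obtain ⟨hdec, hfin⟩ := hDec N κ hN hκ f
  have hf : DifferentiableOn ℂ (fun z : ℂ => f (UpperHalfPlane.ofComplex z)) {z | 0 < z.im} :=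
    UpperHalfPlane.mdifferentiable_iff.1 f.holo'
  obtain ⟨V0, hV0⟩ : ∃ V0 : Finset ℂ, (V0 : Set ℂ) = gens κ f :=
    ⟨(finite_gens hfin).toFinset, (finite_gens hfin).coe_toFinset⟩
  classical
  refine ⟨V0.image (fun z => (I ^ κ)⁻¹ * z), ?_⟩
  intro x D hD
  obtain ⟨P, hPd⟩ : ∃ P, P = pp x D (κ - 1) := ⟨_, rfl⟩
  have hP : P.natDegree ≤ 2 * κ - 2 := by
    rw [hPd]
    exact (natDegree_pp x D (κ - 1)).trans (by omega)
  obtain ⟨F, hF⟩ := exists_prim hf P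
  have hEx := fun γ : SL => exists_E hκ hf hP hF γ (hdec γ)
  choose E hE using hEx
  obtain ⟨γ, hc, hγ⟩ := exists_gamma x hD
  have hmem := E_diff hκ hf hP hF hdec hE γ
  -- the function on the vertical line
  obtain ⟨r, hr⟩ : ∃ r : ℝ, r = (x : ℝ) / D := ⟨_, rfl⟩
  rw [← hr] at hγ
  have hlim0 : Tendsto (fun t : ℝ => F ((r : ℂ) + t * I)) (𝓝[>] 0) (𝓝 (E γ)) := by
    have h1 : Tendsto (fun t : ℝ => 1 / ((γ 1 0 : ℝ) ^ 2 * t)) (𝓝[>] 0) atTop := by
      have h2 : (0 : ℝ) < (γ 1 0 : ℝ) ^ 2 := by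
        have : (0 : ℝ) < (γ 1 0 : ℝ) := by exact_mod_cast hc
        positivity
      have h3 : Tendsto (fun t : ℝ => ((γ 1 0 : ℝ) ^ 2)⁻¹ * t⁻¹) (𝓝[>] 0) atTop :=
        tendsto_inv_nhdsGT_zero.const_mul_atTop (inv_pos.2 h2)
      refine h3.congr (fun t => ?_)
      rw [one_div, mul_inv]
    have h4 := (hE γ (-(γ 1 1 : ℝ) / (γ 1 0 : ℝ))).comp h1
    refine h4.congr' ?_
    filter_upwards [self_mem_nhdsWithin] with t ht
    have ht' : (0 : ℝ) < t := ht
    simp only [Function.comp]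
    rw [hγ t ht']
  have hliminf : Tendsto (fun t : ℝ => F ((r : ℂ) + t * I)) atTop (𝓝 (E 1)) := by
    refine (hE 1 r).congr (fun t => ?_)
    unfold mo
    simp
  have hder : ∀ t : ℝ, 0 < t → HasDerivAt (fun t : ℝ => F ((r : ℂ) + t * I))
      (I ^ κ * ((D : ℂ) ^ (κ - 1) * (f (UpperHalfPlane.ofComplex ((x : ℂ) / D + t * I)) *
        (t : ℂ) ^ (κ - 1)))) t := by
    intro t ht
    have h1 := (hF ((r : ℂ) + t * I) (by rw [line_im]; exact ht)).comp t (hasDerivAt_line r t)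
    have h2 : (r : ℂ) = (x : ℂ) / D := by
      rw [hr]; push_cast; rfl
    have h3 : Polynomial.aeval ((r : ℂ) + t * I) P = (D * t * I) ^ (κ - 1) := by
      rw [hr, hPd]
      exact aeval_pp x hD (κ - 1) t
    have h4 : f (UpperHalfPlane.ofComplex ((r : ℂ) + t * I)) *
        Polynomial.aeval ((r : ℂ) + t * I) P * I =
        I ^ κ * ((D : ℂ) ^ (κ - 1) * (f (UpperHalfPlane.ofComplex ((x : ℂ) / D + t * I)) *
          (t : ℂ) ^ (κ - 1))) := by
      rw [h3, h2]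
      obtain ⟨m, rfl⟩ : ∃ m, κ = m + 1 := ⟨κ - 1, by omega⟩
      rw [Nat.add_sub_cancel, pow_succ I m, mul_pow, mul_pow]
      ring
    rw [h4] at h1
    exact h1
  -- closure of the image
  have himg : ∀ w ∈ AddSubgroup.closure (gens κ f), (I ^ κ)⁻¹ * w ∈
      AddSubgroup.closure ((V0.image (fun z => (I ^ κ)⁻¹ * z) : Finset ℂ) : Set ℂ) := by
    intro w hw
    have h1 : AddSubgroup.map (AddMonoidHom.mulLeft ((I ^ κ)⁻¹ : ℂ))
        (AddSubgroup.closure (gens κ f)) =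
        AddSubgroup.closure ((V0.image (fun z => (I ^ κ)⁻¹ * z) : Finset ℂ) : Set ℂ) := by
      rw [AddMonoidHom.map_closure, Finset.coe_image, hV0]
      rfl
    rw [← h1]
    exact ⟨w, hw, rfl⟩
  by_cases hint : IntegrableOn (fun t : ℝ => f (UpperHalfPlane.ofComplex ((x : ℂ) / D + t * I)) *
      (t : ℂ) ^ (κ - 1)) (Ioi 0)
  · -- fundamental theorem of calculus
    obtain ⟨g, hg⟩ : ∃ g : ℝ → ℂ, g = fun t : ℝ => if t ≤ 0 then E γ else F ((r : ℂ) + t * I) :=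
      ⟨_, rfl⟩
    have hgpos : ∀ t : ℝ, 0 < t → g t = F ((r : ℂ) + t * I) := by
      intro t ht
      rw [hg]
      simp [not_le.2 ht]
    have hg0 : g 0 = E γ := by
      rw [hg]
      simp
    have hcont : ContinuousWithinAt g (Ici 0) 0 := by
      rw [← continuousWithinAt_Ioi_iff_Ici]
      unfold ContinuousWithinAt
      rw [hg0]
      refine hlim0.congr' ?_
      filter_upwards [self_mem_nhdsWithin] with t ht
      exact (hgpos t ht).symm
    have hder' : ∀ t ∈ Ioi (0 : ℝ), HasDerivAt g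
        (I ^ κ * ((D : ℂ) ^ (κ - 1) * (f (UpperHalfPlane.ofComplex ((x : ℂ) / D + t * I)) *
          (t : ℂ) ^ (κ - 1)))) t := by
      intro t ht
      apply (hder t ht).congr_of_eventuallyEq
      filter_upwards [Ioi_mem_nhds ht] with s hs
      exact hgpos s hs
    have hlim' : Tendsto g atTop (𝓝 (E 1)) := by
      refine hliminf.congr' ?_
      filter_upwards [eventually_gt_atTop 0] with t ht
      exact (hgpos t ht).symm
    have hFTC := integral_Ioi_of_hasDerivAt_of_tendsto hcont hder'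
      ((hint.const_mul _).const_mul _) hlim'
    rw [integral_const_mul, integral_const_mul, hg0] at hFTC
    have h1 : (D : ℂ) ^ (κ - 1) * (∫ t in Ioi (0 : ℝ),
        f (UpperHalfPlane.ofComplex ((x : ℂ) / D + t * I)) * (t : ℂ) ^ (κ - 1)) =
        (I ^ κ)⁻¹ * (E 1 - E γ) := by
      rw [← hFTC, ← mul_assoc, inv_mul_cancel₀ (pow_ne_zero _ Complex.I_ne_zero), one_mul]
    rw [h1]
    apply himg
    have h2 : E 1 - E γ = -(E γ - E 1) := by ring
    rw [h2]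
    exact AddSubgroup.neg_mem _ hmem
  · rw [integral_undef hint, mul_zero]
    exact AddSubgroup.zero_mem _

end

end Pool.Agent.Lib.MP_50bb2e_nt.Qtw.Man
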