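import Pool.Agent.Lib.MP_50bb2e_nt.Qtw.Iface

/-!
MP_50bb2e_nt, board QTW, row DEC (helper56): decay of `f | γ` at the cusp `∞` and finiteness of
the set of these functions.
-/

namespace Pool.Agent.Lib.MP_50bb2e_nt.Qtw.Dec

open Complex MeasureTheory Filter Topology UpperHalfPlane
open scoped ModularForm MatrixGroups Manifold

noncomputable section

variable {N κ : ℕ}

theorem slash_left (f : CuspForm (CongruenceSubgroup.Gamma0 N) (2 * (κ : ℤ)))
    (δ γ : SL(2, ℤ)) (hδ : δ ∈ CongruenceSubgroup.Gamma0 N) :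
    ((f : UpperHalfPlane → ℂ) ∣[2 * (κ : ℤ)] (δ * γ)) =
      ((f : UpperHalfPlane → ℂ) ∣[2 * (κ : ℤ)] γ) := by
  have h1 : (Matrix.SpecialLinearGroup.mapGL ℝ δ : GL (Fin 2) ℝ) ∈
      (Subgroup.map (Matrix.SpecialLinearGroup.mapGL ℝ) (CongruenceSubgroup.Gamma0 N)) :=
    Subgroup.mem_map_of_mem _ hδ
  have h2 : ((f : UpperHalfPlane → ℂ) ∣[2 * (κ : ℤ)] δ) = f := by
    rw [ModularForm.SL_slash (γ := δ)]
    exact SlashInvariantForm.slash_action_eqn f _ h1
  rw [SlashAction.slash_mul, h2]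

theorem T_mem (N : ℕ) (γ : SL(2, ℤ)) :
    γ * ModularGroup.T ^ (N : ℤ) * γ⁻¹ ∈ CongruenceSubgroup.Gamma0 N := by
  have h1 : ModularGroup.T ^ (N : ℤ) ∈ CongruenceSubgroup.Gamma N := by
    simpa using CongruenceSubgroup.ModularGroup_T_pow_mem_Gamma (N : ℤ) (N : ℤ) dvd_rfl
  have h2 := (CongruenceSubgroup.Gamma_normal N).conj_mem _ h1 γ
  rw [CongruenceSubgroup.Gamma_mem] at h2
  rw [CongruenceSubgroup.Gamma0_mem]
  exact h2.2.2.1

theorem slash_T (f : CuspForm (CongruenceSubgroup.Gamma0 N) (2 * (κ : ℤ))) (γ : SL(2, ℤ)) :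
    (((f : UpperHalfPlane → ℂ) ∣[2 * (κ : ℤ)] γ) ∣[2 * (κ : ℤ)] (ModularGroup.T ^ (N : ℤ))) =
      ((f : UpperHalfPlane → ℂ) ∣[2 * (κ : ℤ)] γ) := by
  rw [← SlashAction.slash_mul, ← slash_left f _ γ (T_mem N γ)]
  congr 1
  group

theorem slash_T_apply (g : UpperHalfPlane → ℂ) (k : ℤ) (n : ℤ) (τ : UpperHalfPlane) :
    (g ∣[k] (ModularGroup.T ^ n)) τ = g (ModularGroup.T ^ n • τ) := by
  rw [ModularForm.SL_slash_apply]
  have h0 : (ModularGroup.T ^ n : SL(2, ℤ)) 1 0 = 0 := by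
    have := congrFun (congrFun (ModularGroup.coe_T_zpow n) 1) 0
    simpa using this
  have h1 : (ModularGroup.T ^ n : SL(2, ℤ)) 1 1 = 1 := by
    have := congrFun (congrFun (ModularGroup.coe_T_zpow n) 1) 1
    simpa using this
  have : denom (ModularGroup.T ^ n : SL(2, ℤ)) τ = 1 := by
    have h2 : denom (ModularGroup.T ^ n : SL(2, ℤ)) τ =
      (((ModularGroup.T ^ n : SL(2, ℤ)) 1 0 : ℤ) : ℂ) * τ +
        (((ModularGroup.T ^ n : SL(2, ℤ)) 1 1 : ℤ) : ℂ) := by
      rfl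
    rw [h2, h0, h1]
    simp
  rw [this]
  simp

theorem periodic (f : CuspForm (CongruenceSubgroup.Gamma0 N) (2 * (κ : ℤ))) (γ : SL(2, ℤ)) :
    Function.Periodic (((f : UpperHalfPlane → ℂ) ∣[2 * (κ : ℤ)] γ) ∘ ofComplex) (N : ℝ) := by
  intro w
  by_cases! hw : 0 < im w
  · have h1 : 0 < im (w + (N : ℝ)) := by simp [hw]
    simp only [Function.comp_apply, ofComplex_apply_of_im_pos h1, ofComplex_apply_of_im_pos hw]
    have h2 := congrFun (slash_T f γ) ⟨w, hw⟩
    rw [slash_T_apply] at h2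
    rw [← h2]
    have h3 : (⟨w + (N : ℝ), h1⟩ : UpperHalfPlane) =
        ModularGroup.T ^ (N : ℤ) • (⟨w, hw⟩ : UpperHalfPlane) := by
      apply UpperHalfPlane.ext
      rw [ModularGroup.coe_T_zpow_smul_eq]
      simp
    rw [h3]
  · have h1 : im (w + (N : ℝ)) ≤ 0 := by simpa using hw
    rw [Function.comp_apply, Function.comp_apply, ofComplex_apply_of_im_nonpos h1,
      ofComplex_apply_of_im_nonpos hw]

theorem decay (g : UpperHalfPlane → ℂ) (h : ℝ) (hh : 0 < h)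
    (hper : Function.Periodic (g ∘ ofComplex) h) (hhol : MDiff g) (hz : IsZeroAtImInfty g) :
    ∃ C c : ℝ, 0 < c ∧ ∀ τ : UpperHalfPlane, 1 ≤ τ.im → ‖g τ‖ ≤ C * Real.exp (-c * τ.im) := by
  have hbdd : IsBoundedAtImInfty g := hz.boundedAtFilter
  set r : ℝ := Real.exp (-2 * Real.pi * 1 / h) with hr
  have hr1 : r < 1 := by
    have h0 : -2 * Real.pi * 1 / h < 0 := div_neg_of_neg_of_pos (by nlinarith [Real.pi_pos]) hh
    have h1 := Real.exp_lt_exp.2 h0
    rwa [Real.exp_zero] at h1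
  have hsub : Metric.closedBall (0 : ℂ) r ⊆ Metric.ball 0 1 := by
    intro x hx
    rw [Metric.mem_closedBall] at hx
    rw [Metric.mem_ball]
    linarith
  have hdiff := differentiableOn_cuspFunction_ball hh hper hhol hbdd
  have hcont : ContinuousOn (dslope (cuspFunction h g) 0) (Metric.closedBall 0 r) := by
    refine ContinuousOn.mono ?_ hsub
    rw [continuousOn_dslope (Metric.ball_mem_nhds _ one_pos)]
    exact ⟨hdiff.continuousOn,
      differentiableAt_cuspFunction hh hper hhol hbdd (by simp)⟩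
  obtain ⟨C, hC⟩ := (isCompact_closedBall (0 : ℂ) r).exists_bound_of_continuousOn hcont
  refine ⟨C, 2 * Real.pi / h, by positivity, ?_⟩
  intro τ hτ
  have hq : ‖Function.Periodic.qParam h τ‖ ≤ r := by
    rw [Function.Periodic.norm_qParam, hr, Real.exp_le_exp]
    apply div_le_div_of_nonneg_right _ hh.le
    have h2 : (τ : ℂ).im = τ.im := rfl
    rw [h2]
    nlinarith [Real.pi_pos]
  have h0 : cuspFunction h g 0 = 0 := hz.cuspFunction_apply_zero hh
  have h1 := sub_smul_dslope (cuspFunction h g) 0 (Function.Periodic.qParam h τ)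
  rw [h0, sub_zero, sub_zero, eq_cuspFunction τ hh.ne' hper] at h1
  rw [← h1, norm_smul, mul_comm]
  have h3 : ‖Function.Periodic.qParam h τ‖ = Real.exp (-(2 * Real.pi / h) * τ.im) := by
    rw [Function.Periodic.norm_qParam]
    congr 1
    have h2 : (τ : ℂ).im = τ.im := rfl
    rw [h2]
    ring
  rw [h3]
  exact mul_le_mul_of_nonneg_right (hC _ (by simpa using hq)) (Real.exp_pos _).le

theorem dec_proof : DecStatement := by
  intro N κ hN _ f
  have : NeZero N := ⟨hN.ne'⟩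
  constructor
  · intro γ
    apply decay _ (N : ℝ) (by exact_mod_cast hN) (periodic f γ)
    · rw [ModularForm.SL_slash]
      exact (ModularFormClass.holo f).slash _ _
    · exact CuspFormClass.zero_at_infty_slash f γ
  · let φ : SL(2, ℤ) ⧸ CongruenceSubgroup.Gamma0 N → (UpperHalfPlane → ℂ) :=
      Quotient.lift (fun γ : SL(2, ℤ) => ((f : UpperHalfPlane → ℂ) ∣[2 * (κ : ℤ)] γ⁻¹)) (by
        intro a b hab
        have h1 : a⁻¹ * b ∈ CongruenceSubgroup.Gamma0 N := QuotientGroup.leftRel_apply.1 hab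
        have h2 := slash_left f (a⁻¹ * b) b⁻¹ h1
        simpa using h2)
    refine (Set.finite_range φ).subset ?_
    rintro _ ⟨γ, rfl⟩
    refine ⟨QuotientGroup.mk γ⁻¹, ?_⟩
    show ((f : UpperHalfPlane → ℂ) ∣[2 * (κ : ℤ)] (γ⁻¹)⁻¹) = _
    rw [inv_inv]

end

end Pool.Agent.Lib.MP_50bb2e_nt.Qtw.Dec
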