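import Mathlib

/-!
MP_50bb2e_nt, board QTW (helper94): simultaneous non-vanishing of quadratic twists over `ℚ`,
holomorphic eigenforms of any even weights, fixed twists by Dirichlet characters.
Definitions and statements of the modules. Paper: Qtw/Paper.md.
-/

namespace Pool.Agent.Lib.MP_50bb2e_nt.Qtw

open Complex MeasureTheory Filter Topology
open scoped ModularForm

noncomputable section

/-- `f` is a normalized eigenform of the Hecke operators `T_p`, `p` not dividing `N`, of weight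
`2 κ` for `Γ_0(N)` and `a` is the sequence of its Fourier coefficients. -/
structure Eigen (N κ : ℕ) (f : CuspForm (CongruenceSubgroup.Gamma0 N) (2 * (κ : ℤ)))
    (a : ℕ → ℂ) : Prop where
  sum : ∀ τ : UpperHalfPlane,
    HasSum (fun n : ℕ => a n * Complex.exp (2 * (Real.pi : ℂ) * I * n * τ)) (f τ)
  zero : a 0 = 0
  one : a 1 = 1
  hecke : ∀ p : ℕ, p.Prime → ¬ p ∣ N → ∀ n : ℕ, ¬ p ∣ n → a (p * n) = a p * a n
  hecke' : ∀ p : ℕ, p.Prime → ¬ p ∣ N → ∀ n : ℕ,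
    a (p * (p * n)) + (p : ℂ) ^ (2 * κ - 1) * a n = a p * a (p * n)

/-- The Dirichlet series `∑ e(n) n^(-s)` converges for `Re s` large and has an entire
continuation, whose value at `κ` is `l`. -/
def CV (κ : ℕ) (e : ℕ → ℂ) (l : ℂ) : Prop :=
  ∃ L : ℂ → ℂ, Differentiable ℂ L ∧
    (∃ σ : ℝ, ∀ s : ℂ, σ < s.re → HasSum (fun n : ℕ => e n * (n : ℂ) ^ (-s)) (L s)) ∧
    L κ = l

/-- `|.|` is a nonarchimedean absolute value with `|2| < 1`. -/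
def Dyadic (v : AbsoluteValue ℂ ℝ) : Prop :=
  (∀ x y : ℂ, v (x + y) ≤ max (v x) (v y)) ∧ v 2 < 1

/-- row LIN: uniqueness and linearity -/
def LinStatement : Prop :=
  (∀ (κ : ℕ) (e : ℕ → ℂ) (l l' : ℂ), CV κ e l → CV κ e l' → l = l') ∧
  (∀ (κ : ℕ) (e e' : ℕ → ℂ) (l l' : ℂ), CV κ e l → CV κ e' l' →
    CV κ (fun n => e n + e' n) (l + l')) ∧
  (∀ (κ : ℕ) (e : ℕ → ℂ) (c l : ℂ), CV κ e l → CV κ (fun n => c * e n) (c * l))

/-- row DEC: decay of `f | γ` at the cusp `∞` for `γ` in `SL_2(ℤ)`, and the set of these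
functions is finite -/
def DecStatement : Prop :=
  ∀ (N κ : ℕ), 0 < N → 0 < κ →
    ∀ (f : CuspForm (CongruenceSubgroup.Gamma0 N) (2 * (κ : ℤ))),
    (∀ γ : Matrix.SpecialLinearGroup (Fin 2) ℤ, ∃ C c : ℝ, 0 < c ∧
      ∀ τ : UpperHalfPlane, 1 ≤ τ.im →
        ‖((f : UpperHalfPlane → ℂ) ∣[2 * (κ : ℤ)] γ) τ‖ ≤ C * Real.exp (-c * τ.im)) ∧
    (Set.range (fun γ : Matrix.SpecialLinearGroup (Fin 2) ℤ =>
      ((f : UpperHalfPlane → ℂ) ∣[2 * (κ : ℤ)] γ))).Finite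

/-- row MAN: the central periods over the vertical lines over the rational numbers lie in a
finitely generated group -/
def ManStatement : Prop :=
  ∀ (N κ : ℕ), 0 < N → 0 < κ →
    ∀ (f : CuspForm (CongruenceSubgroup.Gamma0 N) (2 * (κ : ℤ))),
    ∃ V : Finset ℂ, ∀ (x : ℤ) (D : ℕ), 0 < D →
      (D : ℂ) ^ (κ - 1) * (∫ t in Set.Ioi (0 : ℝ),
        f (UpperHalfPlane.ofComplex ((x : ℂ) / D + t * I)) * (t : ℂ) ^ (κ - 1)) ∈
      AddSubgroup.closure (V : Set ℂ)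

/-- row ADD: additive twists -/
def AddStatement : Prop :=
  ∀ (N κ : ℕ), 0 < N → 0 < κ →
    ∀ (f : CuspForm (CongruenceSubgroup.Gamma0 N) (2 * (κ : ℤ))) (a : ℕ → ℂ),
    Eigen N κ f a → ∀ (x : ℤ) (D : ℕ), 0 < D →
      CV κ (fun n => a n * Complex.exp (2 * (Real.pi : ℂ) * I * n * x / D))
        ((2 * (Real.pi : ℂ)) ^ κ / (κ - 1).factorial * ∫ t in Set.Ioi (0 : ℝ),
          f (UpperHalfPlane.ofComplex ((x : ℂ) / D + t * I)) * (t : ℂ) ^ (κ - 1))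

/-- row FOU: the central values of the twists by periodic functions are dyadically bounded -/
def FouStatement : Prop :=
  ∀ (N κ : ℕ), 0 < N → 0 < κ →
    ∀ (f : CuspForm (CongruenceSubgroup.Gamma0 N) (2 * (κ : ℤ))) (a : ℕ → ℂ),
    Eigen N κ f a → ∀ v : AbsoluteValue ℂ ℝ, Dyadic v →
      ∃ C : ℝ, 0 < C ∧ ∀ M : ℕ, 0 < M → ∀ φ : ℕ → ℂ, (∀ n, φ (n + M) = φ n) →
        (∀ n, v (φ n) ≤ 1) →
        ∃ l : ℂ, CV κ (fun n => a n * φ n) l ∧ v l * v M ^ κ ≤ C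

/-- row EUL: removing an Euler factor -/
def EulStatement : Prop :=
  ∀ (N κ : ℕ), 0 < N → 0 < κ →
    ∀ (f : CuspForm (CongruenceSubgroup.Gamma0 N) (2 * (κ : ℤ))) (a : ℕ → ℂ),
    Eigen N κ f a → ∀ χ : ℕ → ℂ, (∀ m n, χ (m * n) = χ m * χ n) →
      ∀ p : ℕ, p.Prime → ¬ p ∣ N → ∀ l : ℂ, CV κ (fun n => a n * χ n) l →
        CV κ (fun n => a n * (if p ∣ n then 0 else χ n))
          ((1 - a p * χ p / (p : ℂ) ^ κ + χ p ^ 2 / p) * l)

/-- alternating sum over the cube with bottom `C` and directions `U` -/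
def Dif (F : Finset ℕ → ℂ) (C U : Finset ℕ) : ℂ :=
  ∑ S ∈ U.powerset, (-1) ^ S.card * F (C ∪ S)

/-- `F` is Lipschitz with constant `B` on the cube of the subsets of `T`. -/
def Lip (v : AbsoluteValue ℂ ℝ) (T : Finset ℕ) (B : ℝ) (F : Finset ℕ → ℂ) : Prop :=
  ∀ C U : Finset ℕ, C ⊆ T → U ⊆ T → Disjoint C U → v (Dif F C U) ≤ v 2 ^ U.card * B

/-- row PRO: products of Lipschitz functions -/
def ProStatement : Prop :=
  ∀ (v : AbsoluteValue ℂ ℝ), Dyadic v → ∀ (T : Finset ℕ) (B B' : ℝ) (F G : Finset ℕ → ℂ),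
    0 ≤ B → 0 ≤ B' → Lip v T B F → Lip v T B' G → Lip v T (B * B') (fun S => F S * G S)

open Classical in
/-- row REE: a Lipschitz function which is not small somewhere is not small on at least the
proportion `2 ^ (- j)` of the cube -/
def ReeStatement : Prop :=
  ∀ (v : AbsoluteValue ℂ ℝ), Dyadic v → ∀ (T : Finset ℕ) (B : ℝ) (F : Finset ℕ → ℂ) (j : ℕ),
    0 ≤ B → Lip v T B F → v 2 ^ (j + 1) * B < v (F ∅) →
    2 ^ T.card ≤ 2 ^ j * (T.powerset.filter (fun S => F S ≠ 0)).card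

/-- non-vanishing at the centre -/
def NonVan (κ : ℕ) (e : ℕ → ℂ) : Prop := ∃ l : ℂ, l ≠ 0 ∧ CV κ e l

open Classical in
/-- THE MAIN THEOREM. -/
def MainStatement : Prop :=
  ∀ (r : ℕ) (N κ q : Fin r → ℕ)
    (f : ∀ i, CuspForm (CongruenceSubgroup.Gamma0 (N i)) (2 * (κ i : ℤ)))
    (a : Fin r → ℕ → ℂ) (ψ : ∀ i, DirichletCharacter ℂ (q i)),
    (∀ i, 0 < N i ∧ 0 < κ i ∧ 0 < q i ∧ Eigen (N i) (κ i) (f i) (a i)) →
    (∀ i, NonVan (κ i) (fun n => a i n * ψ i (n : ZMod (q i)))) →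
    ∀ v : AbsoluteValue ℂ ℝ, Dyadic v →
    ∃ d : ℕ, ∀ T : Finset ℕ,
      (∀ p ∈ T, p.Prime ∧ p ≠ 2 ∧ ∀ i, ¬ p ∣ N i * q i ∧ v (a i p) ≤ 1 ∧
        v (1 - a i p * ψ i (p : ZMod (q i)) + ψ i (p : ZMod (q i)) ^ 2) = 1) →
      ∀ w : ℕ → ℝ, (∀ p ∈ T, 0 ≤ w p ∧ w p ≤ 1) →
        ∏ p ∈ T, (1 + w p) ≤ 2 ^ d * ∑ S ∈ T.powerset,
          if ∀ i, NonVan (κ i) (fun n => a i n * ψ i (n : ZMod (q i)) *
              (jacobiSym (n : ℤ) (∏ p ∈ S, p) : ℂ))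
          then ∏ p ∈ S, w p else 0

end

end Pool.Agent.Lib.MP_50bb2e_nt.Qtw
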