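import Pool.Agent.Lib.MP_50bb2e_nt.Qtw.Pro

/-! Row REE of QTW: the Reed-Muller argument. -/

namespace Pool.Agent.Lib.MP_50bb2e_nt.Qtw.Ree

open Pool.Agent.Lib.MP_50bb2e_nt.Qtw Pool.Agent.Lib.MP_50bb2e_nt.Qtw.Pro

variable {v : AbsoluteValue ℂ ℝ}

open Classical in
/-- the number of points of the cube where `F` is larger than `δ` -/
noncomputable def cnt (v : AbsoluteValue ℂ ℝ) (T : Finset ℕ) (δ : ℝ) (F : Finset ℕ → ℂ) : ℕ :=
  (T.powerset.filter (fun S => δ < v (F S))).card

theorem cnt_insert (T : Finset ℕ) (δ : ℝ) (F : Finset ℕ → ℂ) (p : ℕ) (hp : p ∉ T) :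
    cnt v (insert p T) δ F = cnt v T δ F + cnt v T δ (sh p F) := by
  classical
  unfold cnt
  simp only [Finset.card_filter]
  rw [Finset.sum_powerset_insert hp]
  rfl

theorem val_le {T : Finset ℕ} {B : ℝ} {F : Finset ℕ → ℂ} (h : Lip v T B F) {S : Finset ℕ}
    (hS : S ⊆ T) : v (F S) ≤ B := by
  have := h S ∅ hS (Finset.empty_subset _) (Finset.disjoint_empty_right _)
  rwa [dif_empty, Finset.card_empty, pow_zero, one_mul] at this

theorem large_iff (hv : Dyadic v) {x y : ℂ} {δ : ℝ} (hy : v y ≤ δ) :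
    δ < v x ↔ δ < v (x - y) := by
  have hneg : ∀ z : ℂ, v (-z) = v z := fun z => v.map_neg z
  constructor
  · intro h
    by_contra hc
    have h1 : v x ≤ max (v (x - y)) (v y) := by
      have := hv.1 (x - y) y
      rwa [sub_add_cancel] at this
    exact absurd (h1.trans (max_le (not_lt.1 hc) hy)) (not_le.2 h)
  · intro h
    by_contra hc
    have h1 : v (x - y) ≤ max (v x) (v y) := by
      have := hv.1 x (-y)
      rwa [hneg, ← sub_eq_add_neg] at this
    exact absurd (h1.trans (max_le (not_lt.1 hc) hy)) (not_le.2 h)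

theorem v2_pos (v : AbsoluteValue ℂ ℝ) : 0 < v 2 := v.pos two_ne_zero

/-- half of the difference -/
noncomputable def hf (p : ℕ) (F : Finset ℕ → ℂ) : Finset ℕ → ℂ :=
  fun S => (1 / 2 : ℂ) * (F S - sh p F S)

theorem lip_hf {T : Finset ℕ} {B : ℝ} {F : Finset ℕ → ℂ} {p : ℕ} (hp : p ∈ T)
    (h : Lip v T B F) : Lip v (T.erase p) B (hf p F) := by
  intro C U hC hU hd
  have h1 := lip_diff hp h C U hC hU hd
  have h2 : v (1 / 2 : ℂ) * v 2 = 1 := by
    rw [← map_mul]; norm_num
  unfold hf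
  rw [dif_mul, map_mul]
  calc v (1 / 2 : ℂ) * v (Dif (fun S => F S - sh p F S) C U)
      ≤ v (1 / 2 : ℂ) * (v 2 ^ U.card * (v 2 * B)) :=
        mul_le_mul_of_nonneg_left h1 (v.nonneg _)
    _ = (v (1 / 2 : ℂ) * v 2) * (v 2 ^ U.card * B) := by ring
    _ = v 2 ^ U.card * B := by rw [h2, one_mul]

theorem large_hf (hv : Dyadic v) {B : ℝ} {F : Finset ℕ → ℂ} {p : ℕ} {j : ℕ} {S : Finset ℕ}
    (hs : v (sh p F S) ≤ v 2 ^ (j + 1) * B) :
    v 2 ^ (j + 1) * B < v (F S) ↔ v 2 ^ j * B < v (hf p F S) := by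
  rw [large_iff hv hs]
  have h1 : v (F S - sh p F S) = v 2 * v (hf p F S) := by
    rw [← map_mul]; unfold hf; congr 1; ring
  rw [h1]
  have h2 : v 2 ^ (j + 1) * B = v 2 * (v 2 ^ j * B) := by ring
  rw [h2]
  exact mul_lt_mul_iff_right₀ (v2_pos v)

theorem large_hf' (hv : Dyadic v) {B : ℝ} {F : Finset ℕ → ℂ} {p : ℕ} {j : ℕ} {S : Finset ℕ}
    (hs : v (F S) ≤ v 2 ^ (j + 1) * B) :
    v 2 ^ (j + 1) * B < v (sh p F S) ↔ v 2 ^ j * B < v (hf p F S) := by
  rw [large_iff hv hs]
  have h1 : v (sh p F S - F S) = v 2 * v (hf p F S) := by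
    rw [← v.map_neg, ← map_mul]; unfold hf; congr 1; ring
  rw [h1]
  have h2 : v 2 ^ (j + 1) * B = v 2 * (v 2 ^ j * B) := by ring
  rw [h2]
  exact mul_lt_mul_iff_right₀ (v2_pos v)

theorem cnt_congr {T : Finset ℕ} {δ δ' : ℝ} {F G : Finset ℕ → ℂ}
    (h : ∀ S ⊆ T, δ < v (F S) ↔ δ' < v (G S)) : cnt v T δ F = cnt v T δ' G := by
  classical
  unfold cnt
  congr 1
  refine Finset.filter_congr fun S hS => h S (Finset.mem_powerset.1 hS)

theorem ree_aux (hv : Dyadic v) (T : Finset ℕ) :
    ∀ (B : ℝ) (F : Finset ℕ → ℂ) (j : ℕ), 0 ≤ B → Lip v T B F →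
      (∃ S ⊆ T, v 2 ^ (j + 1) * B < v (F S)) →
      2 ^ T.card ≤ 2 ^ j * cnt v T (v 2 ^ (j + 1) * B) F := by
  classical
  induction T using Finset.induction_on with
  | empty =>
    rintro B F j hB hF ⟨S, hS, hlt⟩
    have hS' : S = ∅ := Finset.subset_empty.1 hS
    subst hS'
    have : 1 ≤ cnt v ∅ (v 2 ^ (j + 1) * B) F := by
      unfold cnt
      refine Finset.card_pos.2 ⟨∅, ?_⟩
      simp [hlt]
    calc 2 ^ (∅ : Finset ℕ).card = 1 * 1 := by simp
      _ ≤ _ := Nat.mul_le_mul Nat.one_le_two_pow this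
  | insert p T hp ih =>
    rintro B F j hB hF ⟨S₀, hS₀, hlt⟩
    have hpT : p ∈ insert p T := Finset.mem_insert_self _ _
    have her : (insert p T).erase p = T := Finset.erase_insert hp
    have h0 : Lip v T B F := lip_mono (Finset.subset_insert _ _) hF
    have h1 : Lip v T B (sh p F) := by
      have := lip_sh hpT hF
      rwa [her] at this
    have h2 : Lip v T B (hf p F) := by
      have := lip_hf hpT hF
      rwa [her] at this
    rw [cnt_insert _ _ _ _ hp, Finset.card_insert_of_notMem hp, pow_succ]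
    by_cases hb : ∃ S ⊆ T, v 2 ^ (j + 1) * B < v (sh p F S)
    · by_cases ha : ∃ S ⊆ T, v 2 ^ (j + 1) * B < v (F S)
      · have e0 := ih B F j hB h0 ha
        have e1 := ih B (sh p F) j hB h1 hb
        rw [mul_add]
        omega
      · push Not at ha
        have hc : ∀ S ⊆ T, (v 2 ^ (j + 1) * B < v (sh p F S) ↔ v 2 ^ j * B < v (hf p F S)) :=
          fun S hS => large_hf' hv (ha S hS)
        obtain ⟨S, hS, hl⟩ := hb
        have hl' := (hc S hS).1 hl
        cases j with
        | zero =>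
          exact absurd (val_le h2 hS) (not_le.2 (by simpa using hl'))
        | succ j =>
          have e := ih B (hf p F) j hB h2 ⟨S, hS, hl'⟩
          rw [cnt_congr (v := v) (G := hf p F) (δ' := v 2 ^ (j + 1) * B)
            (F := sh p F) hc]
          rw [pow_succ]
          refine (Nat.mul_le_mul_right 2 (e.trans (Nat.mul_le_mul_left _
            (Nat.le_add_left _ (cnt v T (v 2 ^ (j + 1 + 1) * B) F))))).trans (le_of_eq ?_)
          ring
    · push Not at hb
      have hc : ∀ S ⊆ T, (v 2 ^ (j + 1) * B < v (F S) ↔ v 2 ^ j * B < v (hf p F S)) :=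
        fun S hS => large_hf hv (hb S hS)
      have ha : ∃ S ⊆ T, v 2 ^ (j + 1) * B < v (F S) := by
        by_cases hpS : p ∈ S₀
        · exfalso
          have h3 := hb (S₀.erase p) (fun x hx => by
            have := hS₀ (Finset.mem_of_mem_erase hx)
            rcases Finset.mem_insert.1 this with h | h
            · exact absurd h (Finset.ne_of_mem_erase hx)
            · exact h)
          unfold sh at h3
          rw [Finset.insert_erase hpS] at h3
          exact absurd hlt (not_lt.2 h3)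
        · exact ⟨S₀, fun x hx => by
            rcases Finset.mem_insert.1 (hS₀ hx) with h | h
            · exact absurd (h ▸ hx) hpS
            · exact h, hlt⟩
      obtain ⟨S, hS, hl⟩ := ha
      have hl' := (hc S hS).1 hl
      cases j with
      | zero =>
        exact absurd (val_le h2 hS) (not_le.2 (by simpa using hl'))
      | succ j =>
        have e := ih B (hf p F) j hB h2 ⟨S, hS, hl'⟩
        rw [cnt_congr (v := v) (G := hf p F) (δ' := v 2 ^ (j + 1) * B) (F := F) hc]
        rw [pow_succ]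
        refine (Nat.mul_le_mul_right 2 (e.trans (Nat.mul_le_mul_left _
          (Nat.le_add_right _ (cnt v T (v 2 ^ (j + 1 + 1) * B) (sh p F)))))).trans (le_of_eq ?_)
        ring

theorem ree_proof : ReeStatement := by
  classical
  intro v hv T B F j hB hF hlt
  have h := ree_aux hv T B F j hB hF ⟨∅, Finset.empty_subset _, hlt⟩
  refine h.trans (Nat.mul_le_mul_left _ ?_)
  unfold cnt
  refine Finset.card_le_card fun S hS => ?_
  rw [Finset.mem_filter] at hS ⊢
  refine ⟨hS.1, fun h0 => ?_⟩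
  have h1 := hS.2
  rw [h0, map_zero] at h1
  have : 0 ≤ v 2 ^ (j + 1) * B := mul_nonneg (pow_nonneg (v.nonneg _) _) hB
  linarith

end Pool.Agent.Lib.MP_50bb2e_nt.Qtw.Ree
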